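import Mathlib

/-!
Moments of the indicator sequence of squares and the merging lemma for runs of singular
Hankel matrices.
-/

namespace Pool.Agent.Lib.MP_93db31_nt

open Polynomial Finset

/-- indicator of squares, as a real number -/
noncomputable def h (k : ℕ) : ℝ := if IsSquare k then 1 else 0

/-- the linear functional `X^i ↦ h (i+2)` -/
noncomputable def L : ℝ[X] →ₗ[ℝ] ℝ :=
  Polynomial.lsum (fun i => (h (i + 2)) • (LinearMap.id : ℝ →ₗ[ℝ] ℝ))

lemma L_apply (V : ℝ[X]) : L V = V.sum (fun i a => h (i + 2) * a) := by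
  simp [L, Polynomial.lsum]

lemma L_C_mul (a : ℝ) (V : ℝ[X]) : L (C a * V) = a * L V := by
  rw [← Polynomial.smul_eq_C_mul, map_smul, smul_eq_mul]

lemma L_X_pow (k : ℕ) : L (X ^ k) = h (k + 2) := by
  rw [L_apply, ← Polynomial.monomial_one_right_eq_X_pow,
    Polynomial.sum_monomial_index _ _ (by simp)]
  simp

lemma L_expand (U V : ℝ[X]) (k : ℕ) :
    L (X ^ k * (U * V)) = ∑ j ∈ range (U.natDegree + 1), U.coeff j * L (X ^ (k + j) * V) := by
  conv_lhs => rw [U.as_sum_range_C_mul_X_pow]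
  rw [Finset.sum_mul, Finset.mul_sum, map_sum]
  refine Finset.sum_congr rfl (fun j _ => ?_)
  rw [← L_C_mul]
  congr 1
  rw [pow_add]
  ring

lemma L_expand_one (V : ℝ[X]) (k n : ℕ) (hn : V.natDegree < n) :
    L (X ^ k * V) = ∑ j ∈ range n, V.coeff j * h (k + j + 2) := by
  conv_lhs => rw [V.as_sum_range_C_mul_X_pow' hn]
  rw [Finset.mul_sum, map_sum]
  refine Finset.sum_congr rfl (fun j _ => ?_)
  rw [← L_X_pow, ← L_C_mul]
  congr 1
  rw [pow_add]
  ring

/-- The merging step. -/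
lemma merge_step (V V2 : ℝ[X]) (B : ℕ) (hV2 : V2 ≠ 0)
    (hw : ∀ k < B, L (X ^ k * V) = 0) (hw2 : ∀ k < B + 1, L (X ^ k * V2) = 0)
    (he : V2.natDegree < B + 1) (hd : V.natDegree ≤ V2.natDegree) :
    L (X ^ B * V) = 0 := by
  set e := V2.natDegree with hedef
  have h1 : L (X ^ (B - e) * (V2 * V)) = V2.coeff e * L (X ^ B * V) := by
    rw [L_expand, ← hedef, Finset.sum_range_succ]
    have h2 : ∀ j ∈ range e, V2.coeff j * L (X ^ (B - e + j) * V) = 0 := by
      intro j hj
      rw [Finset.mem_range] at hj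
      rw [hw (B - e + j) (by omega), mul_zero]
    rw [Finset.sum_eq_zero h2, zero_add]
    have : B - e + e = B := by omega
    rw [this]
  have h3 : L (X ^ (B - e) * (V * V2)) = 0 := by
    rw [L_expand]
    refine Finset.sum_eq_zero (fun j hj => ?_)
    rw [Finset.mem_range] at hj
    rw [hw2 (B - e + j) (by omega), mul_zero]
  rw [mul_comm V V2, h1] at h3
  have h4 : V2.coeff e ≠ 0 := by
    rw [hedef]
    exact Polynomial.leadingCoeff_ne_zero.mpr hV2
  exact (mul_eq_zero.mp h3).resolve_left h4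

/-- A run `[A,B]` of singular indices is explained by one polynomial. -/
lemma run (A B : ℕ) (hAB : A ≤ B)
    (hs : ∀ n, A ≤ n → n ≤ B → ∃ V : ℝ[X], V ≠ 0 ∧ V.natDegree < n ∧
      ∀ k < n, L (X ^ k * V) = 0) :
    ∃ V : ℝ[X], V ≠ 0 ∧ V.natDegree < A ∧ ∀ k < B, L (X ^ k * V) = 0 := by
  induction B, hAB using Nat.le_induction with
  | base => exact hs A le_rfl le_rfl
  | succ B hAB ih =>
    obtain ⟨V, hV, hdV, hwV⟩ := ih (fun n h1 h2 => hs n h1 (by omega))
    obtain ⟨V2, hV2, hdV2, hwV2⟩ := hs (B + 1) (by omega) le_rfl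
    by_cases hd : V.natDegree ≤ V2.natDegree
    · refine ⟨V, hV, hdV, fun k hk => ?_⟩
      rcases Nat.lt_succ_iff_lt_or_eq.mp hk with hk | hk
      · exact hwV k hk
      · rw [hk]
        exact merge_step V V2 B hV2 hwV hwV2 hdV2 hd
    · exact ⟨V2, hV2, by omega, hwV2⟩

/-- the `n × n` matrix with entry `1` at `(i,j)` (indices from `0`) when `(i+1)+(j+1)` is a
square -/
def sqMat (n : ℕ) : Matrix (Fin n) (Fin n) ℤ :=
  fun i j => if IsSquare ((i : ℕ) + 1 + ((j : ℕ) + 1)) then 1 else 0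

lemma exists_poly (n : ℕ) (hdet : (sqMat n).det = 0) :
    ∃ V : ℝ[X], V ≠ 0 ∧ V.natDegree < n ∧ ∀ k < n, L (X ^ k * V) = 0 := by
  have h1 : ((sqMat n).map (Int.castRingHom ℝ)).det = 0 := by
    have := (RingHom.map_det (Int.castRingHom ℝ) (sqMat n))
    rw [hdet, map_zero] at this
    rw [RingHom.mapMatrix_apply] at this
    exact this.symm
  obtain ⟨v, hv, hMv⟩ := Matrix.exists_mulVec_eq_zero_iff.mpr h1
  have hn : 0 < n := by
    rcases Nat.eq_zero_or_pos n with h0 | h0
    · subst h0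
      exact absurd (Subsingleton.elim v 0) hv
    · exact h0
  set V : ℝ[X] := ∑ i : Fin n, C (v i) * X ^ (i : ℕ) with hVdef
  have hcoeff : ∀ i : Fin n, V.coeff i = v i := by
    intro i
    rw [hVdef, Polynomial.finsetSum_coeff]
    simp only [Polynomial.coeff_C_mul_X_pow]
    rw [Finset.sum_eq_single i]
    · simp
    · intro b _ hb
      rw [if_neg]
      intro hh
      exact hb (Fin.ext hh.symm)
    · simp
  have hdeg : V.natDegree < n := by
    rw [hVdef]
    refine lt_of_le_of_lt (Polynomial.natDegree_sum_le_of_forall_le (n := n - 1) _ _ ?_) (by omega)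
    intro i _
    refine le_trans (Polynomial.natDegree_C_mul_X_pow_le _ _) ?_
    have := i.2
    omega
  refine ⟨V, ?_, hdeg, ?_⟩
  · intro h0
    apply hv
    ext i
    rw [← hcoeff i, h0]
    simp
  · intro k hk
    rw [L_expand_one V k n hdeg]
    have h2 := congrFun hMv ⟨k, hk⟩
    rw [Matrix.mulVec, dotProduct] at h2
    rw [← Fin.sum_univ_eq_sum_range (fun j => V.coeff j * h (k + j + 2)) n]
    rw [← Pi.zero_apply (M := fun _ : Fin n => ℝ) (⟨k, hk⟩ : Fin n), ← h2]
    refine Finset.sum_congr rfl (fun j _ => ?_)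
    rw [hcoeff j, mul_comm]
    congr 1
    simp only [Matrix.map_apply, sqMat, h]
    have : k + (j : ℕ) + 2 = k + 1 + ((j : ℕ) + 1) := by ring
    rw [this]
    split_ifs <;> simp

/-- From a run of singular indices to one polynomial with many vanishing moments. -/
theorem run_det (A B : ℕ) (hAB : A ≤ B) (hs : ∀ n, A ≤ n → n ≤ B → (sqMat n).det = 0) :
    ∃ V : ℝ[X], V ≠ 0 ∧ V.natDegree < A ∧ ∀ k < B, L (X ^ k * V) = 0 :=
  run A B hAB (fun n h1 h2 => exists_poly n (hs n h1 h2))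

end Pool.Agent.Lib.MP_93db31_nt
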