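import Mathlib
import Pool.Agent.Lib.MP_93db31_nt.Merge

/-!
A polynomial with many vanishing moments bounds the dimension of the row space.
-/

namespace Pool.Agent.Lib.MP_93db31_nt

open Polynomial Finset

/-- the `y`-th row of the `n × n` matrix -/
noncomputable def row (n y : ℕ) : EuclideanSpace ℝ (Fin n) :=
  WithLp.toLp 2 (fun b : Fin n => h (y + (b : ℕ) + 2))

/-- the row space -/
noncomputable def rowSpace (n : ℕ) : Submodule ℝ (EuclideanSpace ℝ (Fin n)) :=
  Submodule.span ℝ (Set.range (fun y : Fin n => row n y))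

/-- coefficient vector of `U * V` -/
noncomputable def T (n g : ℕ) (V : ℝ[X]) :
    Polynomial.degreeLT ℝ g →ₗ[ℝ] EuclideanSpace ℝ (Fin n) where
  toFun U := WithLp.toLp 2 (fun b : Fin n => ((U : ℝ[X]) * V).coeff b)
  map_add' U U' := by
    ext b
    simp [add_mul]
  map_smul' a U := by
    ext b
    simp

lemma finrank_rowSpace_le (V : ℝ[X]) (hV : V ≠ 0) (n B : ℕ) (hn : 2 * n ≤ B + 1)
    (hw : ∀ k < B, L (X ^ k * V) = 0) :
    Module.finrank ℝ (rowSpace n) ≤ V.natDegree := by
  set d := V.natDegree with hd
  have htot := (rowSpace n).finrank_add_finrank_orthogonal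
  rw [finrank_euclideanSpace_fin] at htot
  by_cases hnd : n ≤ d
  · omega
  push Not at hnd
  set g := n - d with hg
  have hgpos : 0 < g := by omega
  have hdegU : ∀ U : Polynomial.degreeLT ℝ g, (U : ℝ[X]).natDegree < g := by
    intro U
    have := U.2
    rw [Polynomial.mem_degreeLT] at this
    by_cases h0 : (U : ℝ[X]) = 0
    · rw [h0]; simpa using hgpos
    · exact (Polynomial.natDegree_lt_iff_degree_lt h0).mpr this
  have hdegUV : ∀ U : Polynomial.degreeLT ℝ g, ((U : ℝ[X]) * V).natDegree < n := by
    intro U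
    have h1 := Polynomial.natDegree_mul_le (p := (U : ℝ[X])) (q := V)
    have h2 := hdegU U
    omega
  have hinj : Function.Injective (T n g V) := by
    rw [← LinearMap.ker_eq_bot, LinearMap.ker_eq_bot']
    intro U hU
    have h1 : (U : ℝ[X]) * V = 0 := by
      ext i
      rw [Polynomial.coeff_zero]
      by_cases hi : i < n
      · have h2 := congrFun (congrArg WithLp.ofLp hU) (⟨i, hi⟩ : Fin n)
        simpa [T] using h2
      · exact Polynomial.coeff_eq_zero_of_natDegree_lt (by have := hdegUV U; omega)
    have h3 : (U : ℝ[X]) = 0 := (mul_eq_zero.mp h1).resolve_right hV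
    exact Subtype.ext h3
  have hrange : LinearMap.range (T n g V) ≤ (rowSpace n)ᗮ := by
    rintro w ⟨U, rfl⟩
    rw [Submodule.mem_orthogonal]
    intro u hu
    induction hu using Submodule.span_induction with
    | mem x hx =>
      obtain ⟨y, rfl⟩ := hx
      have h1 : inner ℝ (row n y) (T n g V U) = L (X ^ (y : ℕ) * ((U : ℝ[X]) * V)) := by
        rw [L_expand_one _ _ n (hdegUV U), PiLp.inner_apply,
          ← Fin.sum_univ_eq_sum_range (fun j => ((U : ℝ[X]) * V).coeff j * h (y + j + 2)) n]
        refine Finset.sum_congr rfl (fun b _ => ?_)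
        simp [row, T]
      rw [h1, L_expand]
      refine Finset.sum_eq_zero (fun j hj => ?_)
      rw [Finset.mem_range] at hj
      have h2 := hdegU U
      have h3 := y.2
      rw [hw ((y : ℕ) + j) (by omega), mul_zero]
    | zero => simp
    | add a b _ _ ha hb => rw [inner_add_left, ha, hb, add_zero]
    | smul c a _ ha => rw [inner_smul_left, ha, mul_zero]
  have h1 : Module.finrank ℝ (LinearMap.range (T n g V)) = g := by
    rw [LinearMap.finrank_range_of_inj hinj,
      LinearEquiv.finrank_eq (Polynomial.degreeLTEquiv ℝ g), Module.finrank_fin_fun]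
  have h2 := Submodule.finrank_mono hrange
  rw [h1] at h2
  omega

lemma row_mem (n : ℕ) (y : Fin n) : row n y ∈ rowSpace n :=
  Submodule.subset_span ⟨y, rfl⟩

end Pool.Agent.Lib.MP_93db31_nt
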