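import Mathlib
import Pool.Agent.Lib.MP_93db31_nt.Rank

/-!
The energy inequality over `ZMod P`.
-/

namespace Pool.Agent.Lib.MP_93db31_nt

open Finset ZMod

variable {P : ℕ} [Fact P.Prime]

/-- Parseval on `ZMod P`. -/
lemma parseval {ι : Type*} [Fintype ι] (s : ι → ZMod P) (hs : Function.Injective s)
    (a : ι → ℂ) :
    ∑ j : ZMod P, ‖∑ i, a i * stdAddChar (j * s i)‖ ^ 2 = P * ∑ i, ‖a i‖ ^ 2 := by
  classical
  have key : ∑ j : ZMod P, (∑ i, a i * stdAddChar (j * s i)) *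
      (starRingEnd ℂ) (∑ i, a i * stdAddChar (j * s i)) =
      (P : ℂ) * ∑ i, a i * (starRingEnd ℂ) (a i) := by
    have h1 : ∀ j : ZMod P, (∑ i, a i * stdAddChar (j * s i)) *
        (starRingEnd ℂ) (∑ i, a i * stdAddChar (j * s i)) =
        ∑ i, ∑ i', (a i * (starRingEnd ℂ) (a i')) * stdAddChar (j * (s i - s i')) := by
      intro j
      rw [map_sum, Finset.sum_mul_sum]
      refine Finset.sum_congr rfl (fun i _ => Finset.sum_congr rfl (fun i' _ => ?_))
      rw [map_mul (starRingEnd ℂ), ← AddChar.map_neg_eq_conj]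
      have : j * (s i - s i') = j * s i + -(j * s i') := by ring
      rw [this, AddChar.map_add_eq_mul]
      ring
    rw [Finset.sum_congr rfl (fun j _ => h1 j), Finset.sum_comm, Finset.mul_sum]
    refine Finset.sum_congr rfl (fun i _ => ?_)
    rw [Finset.sum_comm]
    have h2 : ∀ i', ∑ j : ZMod P, a i * (starRingEnd ℂ) (a i') *
        stdAddChar (j * (s i - s i')) =
        if i' = i then (P : ℂ) * (a i * (starRingEnd ℂ) (a i)) else 0 := by
      intro i'
      rw [← Finset.mul_sum, AddChar.sum_mulShift _ (isPrimitive_stdAddChar P), ZMod.card]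
      by_cases hi : i' = i
      · subst hi
        simp
        ring
      · rw [if_neg hi, if_neg, ]
        · simp
        · intro h0
          exact hi (hs (sub_eq_zero.mp h0)).symm
    rw [Finset.sum_congr rfl (fun i' _ => h2 i')]
    simp
  have h3 : ∀ z : ℂ, z * (starRingEnd ℂ) z = ((‖z‖ ^ 2 : ℝ) : ℂ) := by
    intro z
    rw [Complex.mul_conj, Complex.normSq_eq_norm_sq]
  simp only [h3] at key
  exact_mod_cast key

/-- the weighted quadratic exponential sum -/
noncomputable def f (P : ℕ) [Fact P.Prime] (N : ℕ) (W : ℤ → ℝ) (j : ZMod P) : ℂ :=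
  ∑ m ∈ Finset.Icc (-(2 * N : ℤ)) (2 * N), (W m : ℂ) * stdAddChar (j * ((m ^ 2 : ℤ) : ZMod P))

/-- its coefficients -/
noncomputable def φ (P : ℕ) [Fact P.Prime] (N : ℕ) (W : ℤ → ℝ) (x : ZMod P) : ℝ :=
  ∑ m ∈ Finset.Icc (-(2 * N : ℤ)) (2 * N), W m * (if ((m ^ 2 : ℤ) : ZMod P) = x then 1 else 0)

lemma f_eq (N : ℕ) (W : ℤ → ℝ) (j : ZMod P) :
    f P N W j = ∑ x : ZMod P, (φ P N W x : ℂ) * stdAddChar (j * x) := by
  classical
  unfold f φ
  have h1 : ∀ x : ZMod P, ((∑ m ∈ Finset.Icc (-(2 * N : ℤ)) (2 * N),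
      W m * (if ((m ^ 2 : ℤ) : ZMod P) = x then 1 else 0) : ℝ) : ℂ) * stdAddChar (j * x) =
      ∑ m ∈ Finset.Icc (-(2 * N : ℤ)) (2 * N),
        (if ((m ^ 2 : ℤ) : ZMod P) = x then
          (W m : ℂ) * stdAddChar (j * ((m ^ 2 : ℤ) : ZMod P)) else 0) := by
    intro x
    rw [Complex.ofReal_sum, Finset.sum_mul]
    refine Finset.sum_congr rfl (fun m _ => ?_)
    by_cases hx : ((m ^ 2 : ℤ) : ZMod P) = x
    · rw [if_pos hx, if_pos hx, hx]
      simp
    · rw [if_neg hx, if_neg hx]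
      simp
  rw [Finset.sum_congr rfl (fun x _ => h1 x), Finset.sum_comm]
  refine Finset.sum_congr rfl (fun m _ => ?_)
  simp

lemma φ_eq (N n : ℕ) (W : ℤ → ℝ) (hW : ∀ m : ℤ, |m| ≤ N → W m = 1) (hn : 2 * n ≤ N ^ 2)
    (hP : 4 * N ^ 2 < P) (t : ℕ) (ht1 : 1 ≤ t) (ht2 : t ≤ 2 * n) :
    φ P N W (t : ZMod P) = 2 * h t := by
  have hiff : ∀ m ∈ Finset.Icc (-(2 * N : ℤ)) (2 * N),
      (((m ^ 2 : ℤ) : ZMod P) = (t : ZMod P) ↔ m ^ 2 = (t : ℤ)) := by
    intro m hm
    rw [Finset.mem_Icc] at hm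
    constructor
    · intro h0
      have h1 : (P : ℤ) ∣ (m ^ 2 - (t : ℤ)) := by
        rw [← ZMod.intCast_zmod_eq_zero_iff_dvd]
        push_cast
        push_cast at h0
        rw [h0, sub_self]
      have hm2 : m ^ 2 ≤ 4 * (N : ℤ) ^ 2 := by nlinarith
      have hm0 : 0 ≤ m ^ 2 := sq_nonneg m
      have hP' : 4 * (N : ℤ) ^ 2 < P := by exact_mod_cast hP
      have ht2' : (t : ℤ) ≤ (N : ℤ) ^ 2 := by
        have : t ≤ N ^ 2 := by omega
        exact_mod_cast this
      have ht1' : (1 : ℤ) ≤ t := by exact_mod_cast ht1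
      have h2 : |m ^ 2 - (t : ℤ)| < P := by
        rw [abs_lt]
        constructor <;> nlinarith
      have h3 := Int.eq_zero_of_abs_lt_dvd h1 h2
      linarith
    · intro h0
      rw [h0]
      simp
  unfold φ
  by_cases hsq : IsSquare t
  · obtain ⟨k, hk⟩ := hsq
    have hk1 : 1 ≤ k := by
      rcases Nat.eq_zero_or_pos k with h0 | h0
      · subst h0; omega
      · exact h0
    have hkN : k ≤ N := by
      by_contra hcon
      push Not at hcon
      nlinarith
    have hkmem : (k : ℤ) ∈ Finset.Icc (-(2 * N : ℤ)) (2 * N) := by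
      rw [Finset.mem_Icc]; constructor <;> omega
    have hkmem' : -(k : ℤ) ∈ Finset.Icc (-(2 * N : ℤ)) (2 * N) := by
      rw [Finset.mem_Icc]; constructor <;> omega
    rw [Finset.sum_eq_add (k : ℤ) (-(k : ℤ)) (by omega)]
    · rw [if_pos, if_pos, hW, hW, h, if_pos ⟨k, hk⟩]
      · norm_num
      · rw [abs_neg, Nat.abs_cast]; exact_mod_cast hkN
      · rw [Nat.abs_cast]; exact_mod_cast hkN
      · rw [hiff _ hkmem', hk]; push_cast; ring
      · rw [hiff _ hkmem, hk]; push_cast; ring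
    · intro m hm hmk
      rw [if_neg, mul_zero]
      rw [hiff m hm, hk]
      intro h0
      push_cast at h0
      have : (m - k) * (m + k) = 0 := by linarith [h0]
      rcases mul_eq_zero.mp this with h1 | h1
      · exact hmk.1 (by linarith)
      · exact hmk.2 (by linarith)
    · intro hc; exact absurd hkmem hc
    · intro hc; exact absurd hkmem' hc
  · rw [h, if_neg hsq, mul_zero]
    refine Finset.sum_eq_zero (fun m hm => ?_)
    rw [if_neg, mul_zero]
    rw [hiff m hm]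
    intro h0
    apply hsq
    refine ⟨m.natAbs, ?_⟩
    zify
    rw [← h0, ← sq, sq_abs]

/-- the exponential sum attached to a vector -/
noncomputable def E (P : ℕ) [Fact P.Prime] (n : ℕ) (e : Fin n → ℝ) (j : ZMod P) : ℂ :=
  ∑ b : Fin n, (e b : ℂ) * stdAddChar (j * (-((b : ℕ) : ZMod P)))

lemma one_vec (N n : ℕ) (W : ℤ → ℝ) (hW : ∀ m : ℤ, |m| ≤ N → W m = 1) (hn : 2 * n ≤ N ^ 2)
    (hP : 4 * N ^ 2 < P) (e : Fin n → ℝ) :
    (P : ℝ) * ∑ y : Fin n, (∑ b : Fin n, e b * (2 * h ((y : ℕ) + (b : ℕ) + 2))) ^ 2 ≤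
      ∑ j : ZMod P, ‖f P N W j‖ ^ 2 * ‖E P n e j‖ ^ 2 := by
  classical
  rcases Nat.eq_zero_or_pos n with hn0 | hn0
  · subst hn0
    simp
    positivity
  set g : ZMod P → ℝ := fun x => ∑ b : Fin n, e b * φ P N W (x + ((b : ℕ) : ZMod P)) with hg
  have h1 : ∀ y : Fin n, (∑ b : Fin n, e b * (2 * h ((y : ℕ) + (b : ℕ) + 2))) ^ 2 =
      g (((y : ℕ) + 2 : ℕ) : ZMod P) ^ 2 := by
    intro y
    rw [hg]
    congr 1
    refine Finset.sum_congr rfl (fun b _ => ?_)
    rw [← φ_eq (P := P) N n W hW hn hP ((y : ℕ) + (b : ℕ) + 2) (by omega)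
      (by have := y.2; have := b.2; omega)]
    congr 2
    push_cast
    ring
  have hinj : Function.Injective (fun y : Fin n => (((y : ℕ) + 2 : ℕ) : ZMod P)) := by
    intro y y' hyy
    simp only at hyy
    rw [ZMod.natCast_eq_natCast_iff'] at hyy
    have hy := y.2
    have hy' := y'.2
    have hnP : n + 2 < P := by nlinarith
    rw [Nat.mod_eq_of_lt (by omega), Nat.mod_eq_of_lt (by omega)] at hyy
    exact Fin.ext (by omega)
  have h2 : ∑ y : Fin n, g (((y : ℕ) + 2 : ℕ) : ZMod P) ^ 2 ≤ ∑ x : ZMod P, g x ^ 2 := by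
    rw [← Finset.sum_image (s := Finset.univ) (g := fun y : Fin n => (((y : ℕ) + 2 : ℕ) : ZMod P))
      (f := fun x => g x ^ 2) (fun a _ b _ hab => hinj hab)]
    exact Finset.sum_le_sum_of_subset_of_nonneg (Finset.subset_univ _)
      (fun _ _ _ => sq_nonneg _)
  have h3 := parseval (P := P) (fun x : ZMod P => x) Function.injective_id (fun x => (g x : ℂ))
  have h4 : ∀ j : ZMod P, ∑ x : ZMod P, (g x : ℂ) * stdAddChar (j * x) =
      E P n e j * f P N W j := by
    intro j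
    have h5 : ∀ x : ZMod P, (g x : ℂ) * stdAddChar (j * x) =
        ∑ b : Fin n, (e b : ℂ) * ((φ P N W (x + ((b : ℕ) : ZMod P)) : ℂ) * stdAddChar (j * x)) := by
      intro x
      rw [hg]
      push_cast
      rw [Finset.sum_mul]
      refine Finset.sum_congr rfl (fun b _ => ?_)
      ring
    rw [Finset.sum_congr rfl (fun x _ => h5 x), Finset.sum_comm, E, Finset.sum_mul]
    refine Finset.sum_congr rfl (fun b _ => ?_)
    rw [← Finset.mul_sum, mul_assoc]
    congr 1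
    rw [f_eq, Finset.mul_sum]
    rw [← Equiv.sum_comp (Equiv.addRight ((b : ℕ) : ZMod P))
      (fun x => stdAddChar (j * -((b : ℕ) : ZMod P)) * ((φ P N W x : ℂ) * stdAddChar (j * x)))]
    refine Finset.sum_congr rfl (fun x _ => ?_)
    simp only [Equiv.coe_addRight]
    have h6 : j * x = j * -((b : ℕ) : ZMod P) + j * (x + ((b : ℕ) : ZMod P)) := by ring
    conv_lhs => rw [h6, AddChar.map_add_eq_mul]
    ring
  have h7 : ∀ x : ZMod P, ‖(g x : ℂ)‖ ^ 2 = g x ^ 2 := by
    intro x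
    rw [Complex.norm_real, Real.norm_eq_abs, sq_abs]
  simp only [h7] at h3
  calc (P : ℝ) * ∑ y : Fin n, (∑ b : Fin n, e b * (2 * h ((y : ℕ) + (b : ℕ) + 2))) ^ 2
      = (P : ℝ) * ∑ y : Fin n, g (((y : ℕ) + 2 : ℕ) : ZMod P) ^ 2 := by
        rw [Finset.sum_congr rfl (fun y _ => h1 y)]
    _ ≤ (P : ℝ) * ∑ x : ZMod P, g x ^ 2 := by
        exact mul_le_mul_of_nonneg_left h2 (Nat.cast_nonneg _)
    _ = ∑ j : ZMod P, ‖∑ x : ZMod P, (g x : ℂ) * stdAddChar (j * x)‖ ^ 2 := h3.symm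
    _ = ∑ j : ZMod P, ‖f P N W j‖ ^ 2 * ‖E P n e j‖ ^ 2 := by
        refine Finset.sum_congr rfl (fun j _ => ?_)
        rw [h4 j, norm_mul, mul_pow, mul_comm]

/-- The energy inequality. -/
theorem energy (N n : ℕ) (W : ℤ → ℝ) (hW : ∀ m : ℤ, |m| ≤ N → W m = 1) (hn : 2 * n ≤ N ^ 2)
    (hP : 4 * N ^ 2 < P) :
    ∃ S : ZMod P → ℝ, (∀ j, 0 ≤ S j) ∧ (∀ j, S j ≤ n) ∧
      ∑ j, S j = P * (Module.finrank ℝ (rowSpace n) : ℝ) ∧
      (P : ℝ) * (4 * ∑ y : Fin n, ∑ b : Fin n, h ((y : ℕ) + (b : ℕ) + 2)) ≤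
        ∑ j : ZMod P, ‖f P N W j‖ ^ 2 * S j := by
  classical
  set r := Module.finrank ℝ (rowSpace n) with hr
  let bs := stdOrthonormalBasis ℝ (rowSpace n)
  let v : Fin r → EuclideanSpace ℝ (Fin n) := fun k => ((bs k : rowSpace n) : EuclideanSpace ℝ (Fin n))
  have hv : Orthonormal ℝ v := bs.orthonormal.comp_linearIsometry (rowSpace n).subtypeₗᵢ
  refine ⟨fun j => ∑ k : Fin r, ‖E P n (fun b => v k b) j‖ ^ 2, ?_, ?_, ?_, ?_⟩
  · intro j
    exact Finset.sum_nonneg (fun _ _ => sq_nonneg _)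
  · intro j
    set z : Fin n → ℂ := fun b => stdAddChar (j * (-((b : ℕ) : ZMod P))) with hz
    have hz1 : ∀ b, ‖z b‖ = 1 := by
      intro b
      exact AddChar.norm_apply _ _
    let u1 : EuclideanSpace ℝ (Fin n) := WithLp.toLp 2 (fun b => (z b).re)
    let u2 : EuclideanSpace ℝ (Fin n) := WithLp.toLp 2 (fun b => (z b).im)
    have h1 : ∀ k, ‖E P n (fun b => v k b) j‖ ^ 2 = ‖inner ℝ (v k) u1‖ ^ 2 + ‖inner ℝ (v k) u2‖ ^ 2 := by
      intro k
      rw [← Complex.normSq_eq_norm_sq, Complex.normSq_apply]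
      have hre : (E P n (fun b => v k b) j).re = inner ℝ (v k) u1 := by
        rw [E, Complex.re_sum, PiLp.inner_apply]
        refine Finset.sum_congr rfl (fun b _ => ?_)
        simp [u1, hz, mul_comm]
      have him : (E P n (fun b => v k b) j).im = inner ℝ (v k) u2 := by
        rw [E, Complex.im_sum, PiLp.inner_apply]
        refine Finset.sum_congr rfl (fun b _ => ?_)
        simp [u2, hz, mul_comm]
      rw [hre, him, Real.norm_eq_abs, Real.norm_eq_abs, sq_abs, sq_abs]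
      ring
    simp only [h1]
    rw [Finset.sum_add_distrib]
    have h2 := hv.sum_inner_products_le u1 (s := Finset.univ)
    have h3 := hv.sum_inner_products_le u2 (s := Finset.univ)
    have h4 : ‖u1‖ ^ 2 + ‖u2‖ ^ 2 = n := by
      rw [EuclideanSpace.norm_sq_eq, EuclideanSpace.norm_sq_eq, ← Finset.sum_add_distrib]
      have : ∀ b : Fin n, ‖u1 b‖ ^ 2 + ‖u2 b‖ ^ 2 = 1 := by
        intro b
        have h5 : ‖z b‖ ^ 2 = 1 := by rw [hz1 b]; norm_num
        rw [← Complex.normSq_eq_norm_sq, Complex.normSq_apply] at h5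
        simp only [u1, u2, Real.norm_eq_abs, sq_abs]
        linarith [h5]
      rw [Finset.sum_congr rfl (fun b _ => this b)]
      simp
    linarith
  · rw [Finset.sum_comm]
    have h1 : ∀ k : Fin r, ∑ j : ZMod P, ‖E P n (fun b => v k b) j‖ ^ 2 = P := by
      intro k
      have hinj : Function.Injective (fun b : Fin n => -((b : ℕ) : ZMod P)) := by
        intro b b' hbb
        simp only [neg_inj] at hbb
        rw [ZMod.natCast_eq_natCast_iff'] at hbb
        have hb := b.2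
        have hb' := b'.2
        have hnP : n < P := by nlinarith
        rw [Nat.mod_eq_of_lt (by omega), Nat.mod_eq_of_lt (by omega)] at hbb
        exact Fin.ext hbb
      have h2 := parseval (P := P) _ hinj (fun b => ((v k b : ℝ) : ℂ))
      unfold E
      rw [h2]
      have h3 : ∑ b : Fin n, ‖((v k b : ℝ) : ℂ)‖ ^ 2 = ‖v k‖ ^ 2 := by
        rw [EuclideanSpace.norm_sq_eq]
        refine Finset.sum_congr rfl (fun b _ => ?_)
        rw [Complex.norm_real]
      rw [h3, hv.1 k]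
      norm_num
    rw [Finset.sum_congr rfl (fun k _ => h1 k)]
    simp [mul_comm]
  · have h1 : ∀ y : Fin n, 4 * ∑ b : Fin n, h ((y : ℕ) + (b : ℕ) + 2) =
        ∑ k : Fin r, (∑ b : Fin n, v k b * (2 * h ((y : ℕ) + (b : ℕ) + 2))) ^ 2 := by
      intro y
      have h2 := bs.sum_sq_norm_inner_right ⟨row n y, row_mem n y⟩
      have h3 : ‖(⟨row n y, row_mem n y⟩ : rowSpace n)‖ ^ 2 =
          ∑ b : Fin n, h ((y : ℕ) + (b : ℕ) + 2) := by
        have h30 : ‖(⟨row n y, row_mem n y⟩ : rowSpace n)‖ = ‖row n y‖ := rfl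
        rw [h30, EuclideanSpace.norm_sq_eq]
        refine Finset.sum_congr rfl (fun b _ => ?_)
        simp only [row, h]
        split_ifs <;> simp
      rw [← h3, ← h2, Finset.mul_sum]
      refine Finset.sum_congr rfl (fun k _ => ?_)
      have h4 : inner ℝ (bs k) (⟨row n y, row_mem n y⟩ : rowSpace n) =
          ∑ b : Fin n, v k b * h ((y : ℕ) + (b : ℕ) + 2) := by
        rw [Submodule.coe_inner, PiLp.inner_apply]
        refine Finset.sum_congr rfl (fun b _ => ?_)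
        simp [row, v, mul_comm]
      rw [h4, Real.norm_eq_abs, sq_abs]
      have h5 : ∑ b : Fin n, v k b * (2 * h ((y : ℕ) + (b : ℕ) + 2)) =
          2 * ∑ b : Fin n, v k b * h ((y : ℕ) + (b : ℕ) + 2) := by
        rw [Finset.mul_sum]
        refine Finset.sum_congr rfl (fun b _ => ?_)
        ring
      rw [h5]
      ring
    rw [Finset.mul_sum, Finset.sum_congr rfl (fun y _ => h1 y), Finset.sum_comm, Finset.mul_sum]
    calc ∑ k : Fin r, (P : ℝ) * ∑ y : Fin n,
          (∑ b : Fin n, v k b * (2 * h ((y : ℕ) + (b : ℕ) + 2))) ^ 2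
        ≤ ∑ k : Fin r, ∑ j : ZMod P, ‖f P N W j‖ ^ 2 * ‖E P n (fun b => v k b) j‖ ^ 2 := by
          exact Finset.sum_le_sum (fun k _ => one_vec N n W hW hn hP _)
      _ = ∑ j : ZMod P, ‖f P N W j‖ ^ 2 * ∑ k : Fin r, ‖E P n (fun b => v k b) j‖ ^ 2 := by
          rw [Finset.sum_comm]
          refine Finset.sum_congr rfl (fun j _ => ?_)
          rw [Finset.mul_sum]

end Pool.Agent.Lib.MP_93db31_nt
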