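import Mathlib

/-!
The integer trapezoid and the second difference bound for the exponential sum.
-/

namespace Pool.Agent.Lib.MP_93db31_nt

open Finset

/-- integer trapezoid -/
def t (N m : ℤ) : ℤ := max 0 (min N (2 * N - |m|))

lemma t_nonneg (N m : ℤ) : 0 ≤ t N m := le_max_left _ _

lemma t_le (N m : ℤ) (hN : 0 ≤ N) : t N m ≤ N := by
  unfold t; omega

lemma t_zero (N m : ℤ) (hm : 2 * N ≤ |m|) : t N m = 0 := by
  unfold t; omega

lemma t_eq (N m : ℤ) (hN : 0 ≤ N) (hm : |m| ≤ N) : t N m = N := by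
  unfold t; omega

/-- indicator of the slopes -/
def dd (N m : ℤ) : ℤ := if (N ≤ m ∧ m < 2 * N) ∨ (-(2 * N) ≤ m ∧ m < -N) then 1 else 0

/-- indicator of the corners -/
def cc (N m : ℤ) : ℤ :=
  if m + 1 = N ∨ m + 1 = -N ∨ m + 1 = 2 * N ∨ m + 1 = -(2 * N) then 1 else 0

lemma t_diff (N m : ℤ) (hN : 0 < N) :
    |t N (m + 1) - t N m| ≤ dd N m := by
  unfold t dd
  rcases abs_cases (m + 1) with ⟨h1, h2⟩ | ⟨h1, h2⟩ <;>
  rcases abs_cases m with ⟨h3, h4⟩ | ⟨h3, h4⟩ <;>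
  rw [h1, h3, abs_le] <;> split_ifs <;> omega

lemma t_diff2 (N m : ℤ) (hN : 0 < N) :
    |t N (m + 2) - 2 * t N (m + 1) + t N m| ≤ cc N m := by
  unfold t cc
  rcases abs_cases (m + 2) with ⟨h5, h6⟩ | ⟨h5, h6⟩ <;>
  rcases abs_cases (m + 1) with ⟨h1, h2⟩ | ⟨h1, h2⟩ <;>
  rcases abs_cases m with ⟨h3, h4⟩ | ⟨h3, h4⟩ <;>
  rw [h1, h3, h5, abs_le] <;> split_ifs <;> omega

lemma dd_le_one (N m : ℤ) : dd N m ≤ 1 := by
  unfold dd; split_ifs <;> norm_num

lemma dd_nonneg (N m : ℤ) : 0 ≤ dd N m := by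
  unfold dd; split_ifs <;> norm_num

lemma cc_nonneg (N m : ℤ) : 0 ≤ cc N m := by
  unfold cc; split_ifs <;> norm_num

lemma prod_diff2 (N δ m : ℤ) (hN : 0 < N) :
    |t N (m + 2 + δ) * t N (m + 2) - 2 * (t N (m + 1 + δ) * t N (m + 1)) +
      t N (m + δ) * t N m| ≤ N * cc N (m + δ) + 2 * dd N (m + 1) + N * cc N m := by
  have e : t N (m + 2 + δ) * t N (m + 2) - 2 * (t N (m + 1 + δ) * t N (m + 1)) +
      t N (m + δ) * t N m =
      (t N (m + 2 + δ) - 2 * t N (m + 1 + δ) + t N (m + δ)) * t N (m + 2) +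
      2 * ((t N (m + 1 + δ) - t N (m + δ)) * (t N (m + 2) - t N (m + 1))) +
      t N (m + δ) * (t N (m + 2) - 2 * t N (m + 1) + t N m) := by ring
  rw [e]
  have h1 := t_diff2 N (m + δ) hN
  have h2 := t_diff N (m + δ) hN
  have h3 := t_diff N (m + 1) hN
  have h4 := t_diff2 N m hN
  rw [show m + δ + 2 = m + 2 + δ by ring, show m + δ + 1 = m + 1 + δ by ring] at h1
  rw [show m + δ + 1 = m + 1 + δ by ring] at h2
  rw [show m + 1 + 1 = m + 2 by ring] at h3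
  have h5 := t_le N (m + 2) hN.le
  have h6 := t_nonneg N (m + 2)
  have h7 := t_le N (m + δ) hN.le
  have h8 := t_nonneg N (m + δ)
  have h9 := dd_le_one N (m + δ)
  have h10 := dd_nonneg N (m + 1)
  have h11 := cc_nonneg N (m + δ)
  have h12 := cc_nonneg N m
  have a1 : |(t N (m + 2 + δ) - 2 * t N (m + 1 + δ) + t N (m + δ)) * t N (m + 2)| ≤
      N * cc N (m + δ) := by
    rw [abs_mul, abs_of_nonneg h6, mul_comm N]
    exact mul_le_mul h1 h5 h6 h11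
  have a2 : |2 * ((t N (m + 1 + δ) - t N (m + δ)) * (t N (m + 2) - t N (m + 1)))| ≤
      2 * dd N (m + 1) := by
    rw [abs_mul, abs_mul]
    have : |t N (m + 1 + δ) - t N (m + δ)| * |t N (m + 2) - t N (m + 1)| ≤ 1 * dd N (m + 1) :=
      mul_le_mul (h2.trans h9) h3 (abs_nonneg _) (by norm_num)
    rw [abs_of_pos (by norm_num : (0 : ℤ) < 2)]
    linarith
  have a3 : |t N (m + δ) * (t N (m + 2) - 2 * t N (m + 1) + t N m)| ≤ N * cc N m := by
    rw [abs_mul, abs_of_nonneg h8]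
    exact mul_le_mul h7 h4 (abs_nonneg _) hN.le
  exact le_trans (abs_add_three _ _ _) (by linarith)

lemma sum_cc (N δ : ℤ) (s : Finset ℤ) : ∑ m ∈ s, cc N (m + δ) ≤ 4 := by
  unfold cc
  rw [Finset.sum_boole]
  have h1 : s.filter (fun m => m + δ + 1 = N ∨ m + δ + 1 = -N ∨ m + δ + 1 = 2 * N ∨
      m + δ + 1 = -(2 * N)) ⊆ {N - 1 - δ, -N - 1 - δ, 2 * N - 1 - δ, -(2 * N) - 1 - δ} := by
    intro x hx
    simp only [Finset.mem_filter, Finset.mem_insert, Finset.mem_singleton] at hx ⊢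
    omega
  have h2 := (Finset.card_le_card h1).trans Finset.card_le_four
  exact_mod_cast h2

lemma sum_dd (N : ℤ) (hN : 0 < N) (s : Finset ℤ) : ∑ m ∈ s, dd N (m + 1) ≤ 2 * N := by
  unfold dd
  rw [Finset.sum_boole]
  have h1 : s.filter (fun m => (N ≤ m + 1 ∧ m + 1 < 2 * N) ∨ (-(2 * N) ≤ m + 1 ∧ m + 1 < -N)) ⊆
      Finset.Ico (N - 1) (2 * N - 1) ∪ Finset.Ico (-(2 * N) - 1) (-N - 1) := by
    intro x hx
    simp only [Finset.mem_filter, Finset.mem_union, Finset.mem_Ico] at hx ⊢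
    omega
  have h2 := (Finset.card_le_card h1).trans (Finset.card_union_le _ _)
  rw [Int.card_Ico, Int.card_Ico] at h2
  omega

/-- second difference bound for exponential sums -/
lemma by_parts (v : ℤ → ℝ) (s s' : Finset ℤ) (hs : ∀ m ∉ s, v m = 0)
    (hs' : ∀ m ∉ s', v (m + 2) - 2 * v (m + 1) + v m = 0) (z : ℂ) (hz : ‖z‖ = 1) :
    ‖1 - z‖ ^ 2 * ‖∑ m ∈ s, (v m : ℂ) * z ^ m‖ ≤
      ∑ m ∈ s', |v (m + 2) - 2 * v (m + 1) + v m| := by
  have hz0 : z ≠ 0 := by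
    intro h0
    rw [h0] at hz
    simp at hz
  set F : ℂ := ∑ m ∈ s, (v m : ℂ) * z ^ m with hF
  have H0 : HasSum (fun m : ℤ => (v m : ℂ) * z ^ m) F :=
    hasSum_sum_of_ne_finset_zero (fun m hm => by rw [hs m hm]; simp)
  have H1 : HasSum (fun m : ℤ => (v (m + 1) : ℂ) * z ^ (m + 1)) F := by
    have := (Equiv.addRight (1 : ℤ)).hasSum_iff.mpr H0
    exact this
  have H2 : HasSum (fun m : ℤ => (v (m + 2) : ℂ) * z ^ (m + 2)) F := by
    have := (Equiv.addRight (2 : ℤ)).hasSum_iff.mpr H0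
    exact this
  have H3 := (H2.sub (H1.mul_left (2 * z))).add (H0.mul_left (z ^ 2))
  have H4 : HasSum (fun m : ℤ => ((v (m + 2) - 2 * v (m + 1) + v m : ℝ) : ℂ) * z ^ (m + 2))
      (F - 2 * z * F + z ^ 2 * F) := by
    refine H3.congr_fun ?_
    intro m
    have e1 : z ^ (m + 2) = z ^ m * z ^ 2 := by
      rw [zpow_add₀ hz0]; norm_cast
    have e2 : z ^ (m + 1) = z ^ m * z := by
      rw [zpow_add₀ hz0, zpow_one]
    rw [e1, e2]
    push_cast
    ring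
  have H5 : HasSum (fun m : ℤ => ((v (m + 2) - 2 * v (m + 1) + v m : ℝ) : ℂ) * z ^ (m + 2))
      (∑ m ∈ s', ((v (m + 2) - 2 * v (m + 1) + v m : ℝ) : ℂ) * z ^ (m + 2)) :=
    hasSum_sum_of_ne_finset_zero (fun m hm => by rw [hs' m hm]; simp)
  have H6 := H4.unique H5
  have H7 : (1 - z) ^ 2 * F = F - 2 * z * F + z ^ 2 * F := by ring
  rw [← norm_pow, ← norm_mul, H7, H6]
  refine (norm_sum_le _ _).trans (Finset.sum_le_sum (fun m _ => ?_))
  rw [norm_mul, norm_zpow, hz, one_zpow, mul_one, Complex.norm_real, Real.norm_eq_abs]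

/-- the bound for the product of two trapezoids -/
lemma trap_bound (N δ : ℤ) (hN : 0 < N) (z : ℂ) (hz : ‖z‖ = 1) :
    ‖1 - z‖ ^ 2 * ‖∑ m ∈ Finset.Icc (-(2 * N)) (2 * N),
      ((t N (m + δ) * t N m : ℤ) : ℂ) * z ^ m‖ ≤ 12 * N := by
  have h1 := by_parts (fun m => ((t N (m + δ) * t N m : ℤ) : ℝ))
    (Finset.Icc (-(2 * N)) (2 * N)) (Finset.Icc (-(2 * N) - 2) (2 * N)) (by
      intro m hm
      rw [t_zero N m, mul_zero, Int.cast_zero]
      rw [Finset.mem_Icc] at hm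
      rcases abs_cases m with ⟨h3, h4⟩ | ⟨h3, h4⟩ <;> omega) (by
      intro m hm
      rw [Finset.mem_Icc] at hm
      have e1 : t N m = 0 := t_zero N m (by
        rcases abs_cases m with ⟨h3, h4⟩ | ⟨h3, h4⟩ <;> omega)
      have e2 : t N (m + 1) = 0 := t_zero N _ (by
        rcases abs_cases (m + 1) with ⟨h3, h4⟩ | ⟨h3, h4⟩ <;> omega)
      have e3 : t N (m + 2) = 0 := t_zero N _ (by
        rcases abs_cases (m + 2) with ⟨h3, h4⟩ | ⟨h3, h4⟩ <;> omega)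
      simp only [e1, e2, e3]
      simp) z hz
  have h2 : ∑ m ∈ Finset.Icc (-(2 * N) - 2) (2 * N),
      |((t N (m + 2 + δ) * t N (m + 2) : ℤ) : ℝ) - 2 * ((t N (m + 1 + δ) * t N (m + 1) : ℤ) : ℝ) +
        ((t N (m + δ) * t N m : ℤ) : ℝ)| ≤ 12 * N := by
    have h3 : ∀ m : ℤ, |((t N (m + 2 + δ) * t N (m + 2) : ℤ) : ℝ) -
        2 * ((t N (m + 1 + δ) * t N (m + 1) : ℤ) : ℝ) +
        ((t N (m + δ) * t N m : ℤ) : ℝ)| ≤
        ((N * cc N (m + δ) + 2 * dd N (m + 1) + N * cc N m : ℤ) : ℝ) := by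
      intro m
      have := prod_diff2 N δ m hN
      exact_mod_cast this
    refine (Finset.sum_le_sum (fun m _ => h3 m)).trans ?_
    rw [← Int.cast_sum]
    have h4 : ∑ m ∈ Finset.Icc (-(2 * N) - 2) (2 * N),
        (N * cc N (m + δ) + 2 * dd N (m + 1) + N * cc N m) ≤ 12 * N := by
      rw [Finset.sum_add_distrib, Finset.sum_add_distrib, ← Finset.mul_sum, ← Finset.mul_sum,
        ← Finset.mul_sum]
      have a1 := sum_cc N δ (Finset.Icc (-(2 * N) - 2) (2 * N))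
      have a2 := sum_dd N hN (Finset.Icc (-(2 * N) - 2) (2 * N))
      have a3 := sum_cc N 0 (Finset.Icc (-(2 * N) - 2) (2 * N))
      simp only [add_zero] at a3
      nlinarith
    exact_mod_cast h4
  refine le_trans ?_ h2
  refine le_trans (le_of_eq ?_) (h1.trans (le_of_eq ?_))
  · simp
  · rfl

/-- the trivial bound -/
lemma trap_trivial (N δ : ℤ) (hN : 0 < N) (z : ℂ) (hz : ‖z‖ = 1) :
    ‖∑ m ∈ Finset.Icc (-(2 * N)) (2 * N),
      ((t N (m + δ) * t N m : ℤ) : ℂ) * z ^ m‖ ≤ 4 * N ^ 3 := by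
  have h0 : Finset.Icc (-(2 * N)) (2 * N) = insert (-(2 * N)) (Finset.Icc (-(2 * N) + 1) (2 * N)) := by
    ext x
    simp only [Finset.mem_insert, Finset.mem_Icc]
    omega
  rw [h0, Finset.sum_insert (by simp)]
  have h1 : t N (-(2 * N)) = 0 := t_zero N _ (by
    rcases abs_cases (-(2 * N)) with ⟨h3, h4⟩ | ⟨h3, h4⟩ <;> omega)
  rw [h1, mul_zero, Int.cast_zero, zero_mul, zero_add]
  refine (norm_sum_le _ _).trans ?_
  have h2 : ∀ m ∈ Finset.Icc (-(2 * N) + 1) (2 * N),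
      ‖((t N (m + δ) * t N m : ℤ) : ℂ) * z ^ m‖ ≤ (N : ℝ) ^ 2 := by
    intro m _
    rw [norm_mul, norm_zpow, hz, one_zpow, mul_one, Complex.norm_intCast]
    have a1 := t_le N m hN.le
    have a2 := t_nonneg N m
    have a3 := t_le N (m + δ) hN.le
    have a4 := t_nonneg N (m + δ)
    have : |t N (m + δ) * t N m| ≤ N ^ 2 := by
      rw [abs_of_nonneg (mul_nonneg a4 a2)]
      nlinarith
    exact_mod_cast this
  refine (Finset.sum_le_card_nsmul _ _ _ h2).trans ?_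
  rw [Int.card_Icc, nsmul_eq_mul]
  have h3 : (((2 * N + 1 - (-(2 * N) + 1)).toNat : ℕ) : ℝ) = 4 * N := by
    have : ((2 * N + 1 - (-(2 * N) + 1)).toNat : ℤ) = 4 * N := by omega
    exact_mod_cast this
  rw [h3]
  apply le_of_eq
  ring

end Pool.Agent.Lib.MP_93db31_nt
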