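import Mathlib
import Pool.Agent.Lib.MP_93db31_nt.Energy
import Pool.Agent.Lib.MP_93db31_nt.Trap

/-!
Pointwise bound of the smoothed quadratic exponential sum by the number of small multiples.
-/

namespace Pool.Agent.Lib.MP_93db31_nt

open Finset ZMod

/-- representative of `2 δ j` of least absolute value -/
def rho (P : ℕ) (j : ZMod P) (δ : ℤ) : ℤ := (((2 * δ : ℤ) : ZMod P) * j).valMinAbs

/-- the set of `δ`, `|δ| ≤ 8N`, with `2δj/P` at distance less than `1/(16N)` from an integer -/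
noncomputable def A (P N : ℕ) (j : ZMod P) : Finset ℤ :=
  (Finset.Icc (-(8 * N : ℤ)) (8 * N)).filter (fun δ => 16 * N * |rho P j δ| < P)

/-- the weight -/
noncomputable def W (N : ℕ) (m : ℤ) : ℝ := (t N m : ℝ) / N

lemma W_eq (N : ℕ) (hN : 0 < N) (m : ℤ) (hm : |m| ≤ N) : W N m = 1 := by
  unfold W
  rw [t_eq N m (by positivity) hm]
  have : ((N : ℤ) : ℝ) = (N : ℝ) := by simp
  rw [this]
  exact div_self (by positivity)

variable {P : ℕ} [Fact P.Prime]

lemma rho_cast (j : ZMod P) (δ : ℤ) : ((rho P j δ : ℤ) : ZMod P) = ((2 * δ : ℤ) : ZMod P) * j :=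
  coe_valMinAbs _

lemma rho_unique (j : ZMod P) (δ a : ℤ) (ha : |a| * 2 < P)
    (hc : (a : ZMod P) = ((2 * δ : ℤ) : ZMod P) * j) : rho P j δ = a := by
  unfold rho
  rw [valMinAbs_spec]
  refine ⟨hc.symm, ?_⟩
  rw [Set.mem_Ioc]
  rcases abs_cases a with ⟨h3, h4⟩ | ⟨h3, h4⟩ <;> constructor <;> omega

lemma diff_mem_A (N : ℕ) (hN : 0 < N) (j : ZMod P) (δ δ0 : ℤ)
    (hδ : δ ∈ Finset.Icc (-(4 * N : ℤ)) (4 * N)) (hδ0 : δ0 ∈ Finset.Icc (-(4 * N : ℤ)) (4 * N))
    (h : 16 * N * |rho P j δ - rho P j δ0| < P) : δ - δ0 ∈ A P N j := by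
  have h1 : rho P j (δ - δ0) = rho P j δ - rho P j δ0 := by
    apply rho_unique
    · have : (0 : ℤ) ≤ |rho P j δ - rho P j δ0| := abs_nonneg _
      have hN' : (1 : ℤ) ≤ N := by exact_mod_cast hN
      nlinarith
    · push_cast
      rw [rho_cast, rho_cast]
      push_cast
      ring
  unfold A
  rw [Finset.mem_filter, h1, Finset.mem_Icc]
  rw [Finset.mem_Icc] at hδ hδ0
  exact ⟨by constructor <;> omega, h⟩

/-- the cell index of `δ` -/
def cell (P N : ℕ) (j : ZMod P) (δ : ℤ) : ℕ := 16 * N * (rho P j δ).natAbs / P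

lemma cell_spec (N : ℕ) (j : ZMod P) (δ : ℤ) (k : ℕ) (hk : cell P N j δ = k) :
    (k : ℤ) * P ≤ 16 * N * |rho P j δ| ∧ 16 * N * |rho P j δ| < (k + 1) * P := by
  have hP : 0 < P := (Fact.out : P.Prime).pos
  unfold cell at hk
  have h1 := Nat.div_mul_le_self (16 * N * (rho P j δ).natAbs) P
  have h2 := Nat.lt_div_mul_add (a := 16 * N * (rho P j δ).natAbs) hP
  rw [hk] at h1 h2
  rw [Int.abs_eq_natAbs]
  constructor
  · exact_mod_cast h1
  · have : 16 * N * (rho P j δ).natAbs < (k + 1) * P := by linarith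
    exact_mod_cast this

lemma card_fiber (N : ℕ) (hN : 0 < N) (j : ZMod P) (k : ℕ) :
    ((Finset.Icc (-(4 * N : ℤ)) (4 * N)).filter (fun δ => cell P N j δ = k)).card ≤
      2 * (A P N j).card := by
  classical
  set D := Finset.Icc (-(4 * N : ℤ)) (4 * N) with hD
  have key : ∀ F : Finset ℤ, (∀ δ ∈ F, δ ∈ D) →
      (∀ δ ∈ F, ∀ δ0 ∈ F, 16 * N * |rho P j δ - rho P j δ0| < P) → F.card ≤ (A P N j).card := by
    intro F hF1 hF2
    rcases F.eq_empty_or_nonempty with h0 | ⟨δ0, hδ0⟩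
    · rw [h0]; simp
    · refine Finset.card_le_card_of_injOn (fun δ => δ - δ0) ?_ ?_
      · intro δ hδ
        exact diff_mem_A N hN j δ δ0 (hF1 δ hδ) (hF1 δ0 hδ0) (hF2 δ hδ δ0 hδ0)
      · intro a _ b _ hab
        simp only at hab
        linarith
  have hsub : D.filter (fun δ => cell P N j δ = k) ⊆
      (D.filter (fun δ => cell P N j δ = k ∧ 0 ≤ rho P j δ)) ∪
      (D.filter (fun δ => cell P N j δ = k ∧ rho P j δ < 0)) := by
    intro δ hδ
    rw [Finset.mem_filter] at hδ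
    rw [Finset.mem_union, Finset.mem_filter, Finset.mem_filter]
    rcases le_or_gt 0 (rho P j δ) with h0 | h0
    · exact Or.inl ⟨hδ.1, hδ.2, h0⟩
    · exact Or.inr ⟨hδ.1, hδ.2, h0⟩
  refine (Finset.card_le_card hsub).trans ((Finset.card_union_le _ _).trans ?_)
  have hP : (0 : ℤ) < P := by exact_mod_cast (Fact.out : P.Prime).pos
  have h1 := key (D.filter (fun δ => cell P N j δ = k ∧ 0 ≤ rho P j δ))
    (fun δ hδ => (Finset.mem_filter.mp hδ).1) (by
      intro δ hδ δ0 hδ0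
      have a := (Finset.mem_filter.mp hδ).2
      have b := (Finset.mem_filter.mp hδ0).2
      have a1 := cell_spec N j δ k a.1
      have b1 := cell_spec N j δ0 k b.1
      rw [abs_of_nonneg a.2] at a1
      rw [abs_of_nonneg b.2] at b1
      rcases abs_cases (rho P j δ - rho P j δ0) with ⟨h3, h4⟩ | ⟨h3, h4⟩ <;> rw [h3] <;>
        nlinarith)
  have h2 := key (D.filter (fun δ => cell P N j δ = k ∧ rho P j δ < 0))
    (fun δ hδ => (Finset.mem_filter.mp hδ).1) (by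
      intro δ hδ δ0 hδ0
      have a := (Finset.mem_filter.mp hδ).2
      have b := (Finset.mem_filter.mp hδ0).2
      have a1 := cell_spec N j δ k a.1
      have b1 := cell_spec N j δ0 k b.1
      rw [abs_of_neg a.2] at a1
      rw [abs_of_neg b.2] at b1
      rcases abs_cases (rho P j δ - rho P j δ0) with ⟨h3, h4⟩ | ⟨h3, h4⟩ <;> rw [h3] <;>
        nlinarith)
  omega

lemma norm_one_sub_char (x : ZMod P) :
    4 * |(x.valMinAbs : ℝ)| / P ≤ ‖1 - (stdAddChar x : ℂ)‖ := by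
  have hP : (0 : ℝ) < P := by exact_mod_cast (Fact.out : P.Prime).pos
  have hmem := x.valMinAbs_mem_Ioc
  rw [Set.mem_Ioc] at hmem
  have h1 : (stdAddChar x : ℂ) = Complex.exp (Complex.I * ((2 * Real.pi * x.valMinAbs / P : ℝ) : ℂ)) := by
    conv_lhs => rw [← coe_valMinAbs x, stdAddChar_coe]
    congr 1
    push_cast
    ring
  rw [h1, norm_sub_rev, Complex.norm_exp_I_mul_ofReal_sub_one, norm_mul, Real.norm_eq_abs,
    Real.norm_eq_abs, abs_of_pos (by norm_num : (0 : ℝ) < 2)]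
  have h2 : |2 * Real.pi * x.valMinAbs / P / 2| ≤ Real.pi / 2 := by
    have h3 : |(x.valMinAbs : ℝ)| * 2 ≤ P := by
      have : |x.valMinAbs| * 2 ≤ P := by
        rcases abs_cases x.valMinAbs with ⟨h3, h4⟩ | ⟨h3, h4⟩ <;> omega
      exact_mod_cast this
    have h4 : |2 * Real.pi * x.valMinAbs / P / 2| = Real.pi * |(x.valMinAbs : ℝ)| / P := by
      rw [show 2 * Real.pi * x.valMinAbs / P / 2 = Real.pi * x.valMinAbs / P by ring, abs_div,
        abs_mul, abs_of_pos Real.pi_pos, abs_of_pos hP]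
    rw [h4, div_le_div_iff₀ hP (by norm_num)]
    nlinarith [Real.pi_pos]
  have h3 := Real.mul_abs_le_abs_sin h2
  have h4 : |2 * Real.pi * x.valMinAbs / P / 2| = Real.pi * |(x.valMinAbs : ℝ)| / P := by
    rw [show 2 * Real.pi * x.valMinAbs / P / 2 = Real.pi * x.valMinAbs / P by ring, abs_div,
      abs_mul, abs_of_pos Real.pi_pos, abs_of_pos hP]
  rw [h4] at h3
  have h5 : 2 / Real.pi * (Real.pi * |(x.valMinAbs : ℝ)| / P) = 2 * |(x.valMinAbs : ℝ)| / P := by
    field_simp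
  rw [h5] at h3
  calc 4 * |(x.valMinAbs : ℝ)| / P = 2 * (2 * |(x.valMinAbs : ℝ)| / P) := by ring
    _ ≤ _ := by linarith

/-- inner sums -/
noncomputable def G (P : ℕ) [Fact P.Prime] (N : ℕ) (j : ZMod P) (δ : ℤ) : ℝ :=
  ‖∑ m ∈ Finset.Icc (-(2 * N : ℤ)) (2 * N),
    ((t N (m + δ) * t N m : ℤ) : ℂ) * (stdAddChar (((2 * δ : ℤ) : ZMod P) * j) : ℂ) ^ m‖

lemma normsq_f_le (N : ℕ) (hN : 0 < N) (j : ZMod P) :
    (N : ℝ) ^ 2 * ‖f P N (W N) j‖ ^ 2 ≤
      ∑ δ ∈ Finset.Icc (-(4 * N : ℤ)) (4 * N), G P N j δ := by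
  classical
  set K := Finset.Icc (-(2 * N : ℤ)) (2 * N) with hK
  set D := Finset.Icc (-(4 * N : ℤ)) (4 * N) with hD
  have hNr : (0 : ℝ) < N := by exact_mod_cast hN
  have hNc : (N : ℂ) ≠ 0 := by exact_mod_cast hN.ne'
  set g : ℤ → ℂ := fun m => ((t N m : ℤ) : ℂ) * stdAddChar (j * ((m ^ 2 : ℤ) : ZMod P)) with hg
  have hg0 : ∀ m ∉ K, g m = 0 := by
    intro m hm
    rw [hg]
    simp only
    rw [t_zero N m, Int.cast_zero, zero_mul]
    rw [hK, Finset.mem_Icc] at hm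
    rcases abs_cases m with ⟨h3, h4⟩ | ⟨h3, h4⟩ <;> omega
  have h1 : (N : ℂ) * f P N (W N) j = ∑ m ∈ K, g m := by
    rw [f, Finset.mul_sum]
    refine Finset.sum_congr rfl (fun m _ => ?_)
    rw [hg, W]
    push_cast
    field_simp
  have h2 : ((∑ m ∈ K, g m) * (starRingEnd ℂ) (∑ m ∈ K, g m)) =
      ∑ δ ∈ D, stdAddChar (j * ((δ ^ 2 : ℤ) : ZMod P)) *
        ∑ m ∈ K, ((t N (m + δ) * t N m : ℤ) : ℂ) *
          (stdAddChar (((2 * δ : ℤ) : ZMod P) * j) : ℂ) ^ m := by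
    rw [map_sum, Finset.mul_sum]
    have h3 : ∀ m ∈ K, (∑ m' ∈ K, g m') * (starRingEnd ℂ) (g m) =
        ∑ δ ∈ D, stdAddChar (j * ((δ ^ 2 : ℤ) : ZMod P)) *
          (((t N (m + δ) * t N m : ℤ) : ℂ) *
            (stdAddChar (((2 * δ : ℤ) : ZMod P) * j) : ℂ) ^ m) := by
      intro m hm
      have h4 : ∑ m' ∈ K, g m' = ∑ δ ∈ D, g (m + δ) := by
        rw [← Finset.sum_image (s := D) (g := fun δ => m + δ) (f := g)
          (fun a _ b _ hab => by simpa using hab)]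
        refine Finset.sum_subset ?_ (fun x _ hx => hg0 x hx)
        intro x hx
        rw [Finset.mem_image]
        refine ⟨x - m, ?_, by ring⟩
        rw [hK, Finset.mem_Icc] at hx hm
        rw [hD, Finset.mem_Icc]
        constructor <;> omega
      rw [h4, Finset.sum_mul]
      refine Finset.sum_congr rfl (fun δ _ => ?_)
      simp only [hg]
      rw [map_mul (starRingEnd ℂ), ← AddChar.map_neg_eq_conj, ← AddChar.map_zsmul_eq_zpow]
      have e1 : (starRingEnd ℂ) ((t N m : ℤ) : ℂ) = ((t N m : ℤ) : ℂ) := map_intCast (starRingEnd ℂ) _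
      rw [e1]
      have e2 : stdAddChar (j * (((m + δ) ^ 2 : ℤ) : ZMod P)) *
          stdAddChar (-(j * ((m ^ 2 : ℤ) : ZMod P))) =
          (stdAddChar (j * ((δ ^ 2 : ℤ) : ZMod P)) *
          stdAddChar (m • (((2 * δ : ℤ) : ZMod P) * j)) : ℂ) := by
        rw [← AddChar.map_add_eq_mul, ← AddChar.map_add_eq_mul]
        congr 1
        rw [zsmul_eq_mul]
        push_cast
        ring
      push_cast
      push_cast at e2
      linear_combination ((t N (m + δ) : ℤ) : ℂ) * ((t N m : ℤ) : ℂ) * e2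
    rw [Finset.sum_congr rfl h3, Finset.sum_comm]
    refine Finset.sum_congr rfl (fun δ _ => ?_)
    rw [Finset.mul_sum]
  have h5 : (N : ℝ) ^ 2 * ‖f P N (W N) j‖ ^ 2 =
      ‖(∑ m ∈ K, g m) * (starRingEnd ℂ) (∑ m ∈ K, g m)‖ := by
    rw [← h1, norm_mul, RCLike.norm_conj, norm_mul, Complex.norm_natCast]
    ring
  rw [h5, h2]
  refine (norm_sum_le _ _).trans (Finset.sum_le_sum (fun δ _ => ?_))
  rw [norm_mul, AddChar.norm_apply, one_mul]
  rfl

lemma G_le (N : ℕ) (hN : 0 < N) (j : ZMod P) (δ : ℤ) :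
    G P N j δ ≤ if cell P N j δ < 7 then 4 * (N : ℝ) ^ 3
      else 192 * (N : ℝ) ^ 3 * (((cell P N j δ : ℕ) : ℝ) ^ 2)⁻¹ := by
  have hP : (0 : ℝ) < P := by exact_mod_cast (Fact.out : P.Prime).pos
  have hNr : (0 : ℝ) < N := by exact_mod_cast hN
  have hNz : (0 : ℤ) < N := by exact_mod_cast hN
  set z : ℂ := (stdAddChar (((2 * δ : ℤ) : ZMod P) * j) : ℂ) with hz
  have hz1 : ‖z‖ = 1 := AddChar.norm_apply _ _
  split_ifs with hc
  · have := trap_trivial N δ hNz z hz1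
    rw [Int.cast_natCast] at this
    exact this
  · set k := cell P N j δ with hk
    push Not at hc
    have h1 := trap_bound N δ hNz z hz1
    have h2 : 4 * |((rho P j δ : ℤ) : ℝ)| / P ≤ ‖1 - z‖ := norm_one_sub_char _
    have h3 := (cell_spec N j δ k rfl).1
    have h4 : (k : ℝ) * P ≤ 16 * N * |((rho P j δ : ℤ) : ℝ)| := by exact_mod_cast h3
    have hkr : (0 : ℝ) < k := by
      have : 0 < k := by omega
      exact_mod_cast this
    have h5 : (k : ℝ) / (4 * N) ≤ ‖1 - z‖ := by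
      refine le_trans ?_ h2
      rw [div_le_div_iff₀ (by positivity) hP]
      nlinarith
    have h6 : ((k : ℝ) / (4 * N)) ^ 2 ≤ ‖1 - z‖ ^ 2 :=
      pow_le_pow_left₀ (by positivity) h5 2
    have h7 : (k : ℝ) ^ 2 / (16 * N ^ 2) * G P N j δ ≤ 12 * N := by
      have : ((k : ℝ) / (4 * N)) ^ 2 = (k : ℝ) ^ 2 / (16 * N ^ 2) := by
        field_simp
        ring
      rw [← this]
      refine le_trans (mul_le_mul_of_nonneg_right h6 (norm_nonneg _)) ?_
      rw [Int.cast_natCast] at h1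
      exact h1
    have h9 : G P N j δ = ((k : ℝ) ^ 2 / (16 * N ^ 2) * G P N j δ) * (16 * N ^ 2 / (k : ℝ) ^ 2) := by
      field_simp
    rw [h9]
    calc ((k : ℝ) ^ 2 / (16 * N ^ 2) * G P N j δ) * (16 * N ^ 2 / (k : ℝ) ^ 2)
        ≤ (12 * N) * (16 * N ^ 2 / (k : ℝ) ^ 2) :=
          mul_le_mul_of_nonneg_right h7 (by positivity)
      _ = 192 * (N : ℝ) ^ 3 * ((k : ℝ) ^ 2)⁻¹ := by
          field_simp
          ring

/-- The pointwise bound. -/
theorem pointwise (N : ℕ) (hN : 0 < N) (j : ZMod P) :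
    ‖f P N (W N) j‖ ^ 2 ≤ 120 * N * (A P N j).card := by
  classical
  have hNr : (0 : ℝ) < N := by exact_mod_cast hN
  have hP0 : 0 < P := (Fact.out : P.Prime).pos
  set D := Finset.Icc (-(4 * N : ℤ)) (4 * N) with hD
  set B : ℕ → ℝ := fun k => if k < 7 then 4 * (N : ℝ) ^ 3
    else 192 * (N : ℝ) ^ 3 * (((k : ℕ) : ℝ) ^ 2)⁻¹ with hB
  have hB0 : ∀ k, 0 ≤ B k := by
    intro k
    rw [hB]
    simp only
    split_ifs <;> positivity
  set M := 16 * N * P + 8 with hM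
  have hcell : ∀ δ ∈ D, cell P N j δ ∈ Finset.range M := by
    intro δ _
    rw [Finset.mem_range]
    unfold cell rho
    have h1 : ((((2 * δ : ℤ) : ZMod P) * j).valMinAbs).natAbs ≤ P / 2 := natAbs_valMinAbs_le _
    have h2 : 16 * N * ((((2 * δ : ℤ) : ZMod P) * j).valMinAbs).natAbs / P ≤
        16 * N * ((((2 * δ : ℤ) : ZMod P) * j).valMinAbs).natAbs := Nat.div_le_self _ _
    have h3 : 16 * N * ((((2 * δ : ℤ) : ZMod P) * j).valMinAbs).natAbs ≤ 16 * N * P :=
      Nat.mul_le_mul_left _ (by omega)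
    omega
  have h1 : ∑ δ ∈ D, G P N j δ ≤ ∑ k ∈ Finset.range M, (2 * (A P N j).card : ℝ) * B k := by
    calc ∑ δ ∈ D, G P N j δ ≤ ∑ δ ∈ D, B (cell P N j δ) :=
          Finset.sum_le_sum (fun δ _ => G_le N hN j δ)
      _ = ∑ k ∈ Finset.range M, ∑ δ ∈ D with cell P N j δ = k, B (cell P N j δ) :=
          (Finset.sum_fiberwise_of_maps_to hcell _).symm
      _ ≤ ∑ k ∈ Finset.range M, (2 * (A P N j).card : ℝ) * B k := by
          refine Finset.sum_le_sum (fun k _ => ?_)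
          have h2 : ∑ δ ∈ D with cell P N j δ = k, B (cell P N j δ) =
              ((D.filter (fun δ => cell P N j δ = k)).card : ℝ) * B k := by
            rw [← nsmul_eq_mul, ← Finset.sum_const]
            refine Finset.sum_congr rfl (fun δ hδ => ?_)
            rw [(Finset.mem_filter.mp hδ).2]
          rw [h2]
          refine mul_le_mul_of_nonneg_right ?_ (hB0 k)
          exact_mod_cast card_fiber N hN j k
  have h3 : ∑ k ∈ Finset.range M, B k ≤ 60 * (N : ℝ) ^ 3 := by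
    have hM7 : 7 ≤ M := by omega
    rw [← Finset.sum_range_add_sum_Ico _ hM7]
    have h4 : ∑ k ∈ Finset.range 7, B k = 28 * (N : ℝ) ^ 3 := by
      have : ∀ k ∈ Finset.range 7, B k = 4 * (N : ℝ) ^ 3 := by
        intro k hk
        rw [hB]
        simp only
        rw [if_pos (Finset.mem_range.mp hk)]
      rw [Finset.sum_congr rfl this, Finset.sum_const, Finset.card_range, nsmul_eq_mul]
      push_cast
      ring
    have h5 : ∑ k ∈ Finset.Ico 7 M, B k ≤ 32 * (N : ℝ) ^ 3 := by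
      have h6 : ∀ k ∈ Finset.Ico 7 M, B k = 192 * (N : ℝ) ^ 3 * (((k : ℕ) : ℝ) ^ 2)⁻¹ := by
        intro k hk
        rw [hB]
        simp only
        rw [if_neg (by have := (Finset.mem_Ico.mp hk).1; omega)]
      rw [Finset.sum_congr rfl h6, ← Finset.mul_sum]
      have h7 : ∑ k ∈ Finset.Ico 7 M, (((k : ℕ) : ℝ) ^ 2)⁻¹ ≤ 1 / 6 := by
        have h8 : Finset.Ico 7 M = Finset.Ioc 6 (M - 1) := by
          ext x
          simp only [Finset.mem_Ico, Finset.mem_Ioc]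
          omega
        rw [h8]
        have h9 := sum_Ioc_inv_sq_le_sub (α := ℝ) (k := 6) (n := M - 1) (by norm_num) (by omega)
        have h10 : (0 : ℝ) ≤ ((M - 1 : ℕ) : ℝ)⁻¹ := by positivity
        push_cast at h9
        linarith
      have h11 : (0 : ℝ) ≤ 192 * (N : ℝ) ^ 3 := by positivity
      nlinarith
    linarith
  have h12 := normsq_f_le N hN j
  have h13 : (N : ℝ) ^ 2 * ‖f P N (W N) j‖ ^ 2 ≤ (2 * (A P N j).card : ℝ) * (60 * (N : ℝ) ^ 3) := by
    refine h12.trans (h1.trans ?_)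
    rw [← Finset.mul_sum]
    exact mul_le_mul_of_nonneg_left h3 (by positivity)
  have h14 : (N : ℝ) ^ 2 * ‖f P N (W N) j‖ ^ 2 ≤ (N : ℝ) ^ 2 * (120 * N * (A P N j).card) := by
    refine h13.trans (le_of_eq ?_)
    ring
  exact le_of_mul_le_mul_left h14 (by positivity)

end Pool.Agent.Lib.MP_93db31_nt
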