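import Mathlib
import Pool.Agent.Lib.MP_93db31_nt.Pointwise

/-!
The tail estimate for the number of small multiples.
-/

namespace Pool.Agent.Lib.MP_93db31_nt

open Finset ZMod

variable {P : ℕ} [Fact P.Prime]

lemma mem_A_iff (N : ℕ) (j : ZMod P) (δ : ℤ) :
    δ ∈ A P N j ↔ (-(8 * N : ℤ) ≤ δ ∧ δ ≤ 8 * N) ∧ 16 * N * |rho P j δ| < P := by
  unfold A
  rw [Finset.mem_filter, Finset.mem_Icc]

lemma exists_a (j : ZMod P) (δ : ℤ) : ∃ a : ℤ, rho P j δ = 2 * δ * (j.val : ℤ) - P * a := by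
  have h1 : (P : ℤ) ∣ 2 * δ * (j.val : ℤ) - rho P j δ := by
    rw [← ZMod.intCast_zmod_eq_zero_iff_dvd]
    push_cast
    rw [rho_cast]
    push_cast
    rw [ZMod.natCast_zmod_val, sub_self]
  obtain ⟨a, ha⟩ := h1
  exact ⟨a, by linarith⟩

lemma parallel (N : ℕ) (j : ZMod P) (δ1 δ2 a1 a2 : ℤ) (h1 : δ1 ∈ A P N j) (h2 : δ2 ∈ A P N j)
    (e1 : rho P j δ1 = 2 * δ1 * (j.val : ℤ) - P * a1)
    (e2 : rho P j δ2 = 2 * δ2 * (j.val : ℤ) - P * a2) : δ1 * a2 = δ2 * a1 := by
  rw [mem_A_iff] at h1 h2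
  obtain ⟨⟨h11, h12⟩, h13⟩ := h1
  obtain ⟨⟨h21, h22⟩, h23⟩ := h2
  set r1 := rho P j δ1 with hr1
  set r2 := rho P j δ2 with hr2
  have hP : (0 : ℤ) < P := by exact_mod_cast (Fact.out : P.Prime).pos
  have h3 : (P : ℤ) * (δ1 * a2 - δ2 * a1) = δ2 * r1 - δ1 * r2 := by
    rw [e1, e2]; ring
  have h4 : |δ2 * r1| ≤ 8 * N * |r1| := by
    rw [abs_mul]
    exact mul_le_mul_of_nonneg_right (abs_le.mpr ⟨h21, h22⟩) (abs_nonneg _)
  have h5 : |δ1 * r2| ≤ 8 * N * |r2| := by
    rw [abs_mul]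
    exact mul_le_mul_of_nonneg_right (abs_le.mpr ⟨h11, h12⟩) (abs_nonneg _)
  have h6 : |(P : ℤ) * (δ1 * a2 - δ2 * a1)| < P := by
    rw [h3]
    have h7 := abs_sub (δ2 * r1) (δ1 * r2)
    nlinarith
  have h8 := Int.eq_zero_of_abs_lt_dvd (Dvd.intro _ rfl : (P : ℤ) ∣ P * (δ1 * a2 - δ2 * a1)) h6
  rcases mul_eq_zero.mp h8 with h9 | h9
  · omega
  · linarith

lemma neg_mem (N : ℕ) (hN : 0 < N) (j : ZMod P) (δ : ℤ) (h : δ ∈ A P N j) : -δ ∈ A P N j := by
  rw [mem_A_iff] at h ⊢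
  obtain ⟨⟨h11, h12⟩, h13⟩ := h
  have h1 : rho P j (-δ) = -rho P j δ := by
    apply rho_unique
    · rw [abs_neg]
      have : (0 : ℤ) ≤ |rho P j δ| := abs_nonneg _
      have hN' : (1 : ℤ) ≤ N := by exact_mod_cast hN
      nlinarith
    · push_cast
      rw [rho_cast]
      push_cast
      ring
  rw [h1, abs_neg]
  exact ⟨⟨by omega, by omega⟩, h13⟩

lemma tail_imp (N : ℕ) (hN : 0 < N) (j : ZMod P) (k : ℕ) (hk : 1 ≤ k)
    (hA : 2 * k + 1 ≤ (A P N j).card) :
    ∃ b : ℕ, 1 ≤ b ∧ k * b ≤ 8 * N ∧ 16 * N * k * |rho P j (b : ℤ)| < P := by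
  classical
  have hP : (0 : ℤ) < P := by exact_mod_cast (Fact.out : P.Prime).pos
  set Ap := (A P N j).filter (fun δ => 0 < δ) with hAp
  have hcard : k ≤ Ap.card := by
    have hsub : A P N j ⊆ Ap ∪ (Ap.image (fun δ => -δ)) ∪ {0} := by
      intro δ hδ
      rw [Finset.mem_union, Finset.mem_union, Finset.mem_singleton, hAp, Finset.mem_filter,
        Finset.mem_image]
      rcases lt_trichotomy δ 0 with h0 | h0 | h0
      · left; right
        refine ⟨-δ, ?_, by ring⟩
        rw [Finset.mem_filter]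
        exact ⟨neg_mem N hN j δ hδ, by omega⟩
      · right; exact h0
      · left; left; exact ⟨hδ, h0⟩
    have h1 := Finset.card_le_card hsub
    have h2 := Finset.card_union_le (Ap ∪ (Ap.image (fun δ => -δ))) {0}
    have h3 := Finset.card_union_le Ap (Ap.image (fun δ => -δ))
    have h4 := Finset.card_image_le (s := Ap) (f := fun δ : ℤ => -δ)
    rw [Finset.card_singleton] at h2
    omega
  have hne : Ap.Nonempty := by
    rw [← Finset.card_pos]; omega
  obtain ⟨d, hd, hdmax⟩ := Finset.exists_max_image Ap (fun x => x) hne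
  have hdA : d ∈ A P N j := (Finset.mem_filter.mp hd).1
  have hdpos : 0 < d := (Finset.mem_filter.mp hd).2
  obtain ⟨a, ha⟩ := exists_a j d
  set g : ℕ := Int.gcd d a with hg
  have hgpos : 0 < g := Int.gcd_pos_of_ne_zero_left _ hdpos.ne'
  obtain ⟨b, hb⟩ : (g : ℤ) ∣ d := Int.gcd_dvd_left _ _
  obtain ⟨a', ha'⟩ : (g : ℤ) ∣ a := Int.gcd_dvd_right _ _
  have hgz : (0 : ℤ) < g := by exact_mod_cast hgpos
  have hbpos : 0 < b := by
    by_contra hcon
    push Not at hcon
    nlinarith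
  have hcop : IsCoprime b a' := by
    rw [Int.isCoprime_iff_gcd_eq_one]
    have h1 : Int.gcd d a = g * Int.gcd b a' := by
      rw [hb, ha', Int.gcd_mul_left, Int.natAbs_natCast]
    rw [← hg] at h1
    have h2 : g * Int.gcd b a' = g * 1 := by omega
    exact Nat.eq_of_mul_eq_mul_left hgpos h2
  have hmul : ∀ δ ∈ Ap, ∃ i : ℕ, i ∈ Finset.Icc 1 g ∧ (i : ℤ) * b = δ := by
    intro δ hδ
    have hδA : δ ∈ A P N j := (Finset.mem_filter.mp hδ).1
    have hδpos : 0 < δ := (Finset.mem_filter.mp hδ).2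
    obtain ⟨aδ, haδ⟩ := exists_a j δ
    have h1 := parallel N j δ d aδ a hδA hdA haδ ha
    have h2 : δ * a' = b * aδ := by
      have h3 : (g : ℤ) * (δ * a') = g * (b * aδ) := by
        calc (g : ℤ) * (δ * a') = δ * a := by rw [ha']; ring
          _ = d * aδ := h1
          _ = g * (b * aδ) := by rw [hb]; ring
      exact mul_left_cancel₀ hgz.ne' h3
    have h4 : b ∣ δ := by
      have h5 : b ∣ δ * a' := ⟨aδ, h2⟩
      exact hcop.dvd_of_dvd_mul_right h5
    obtain ⟨i, hi⟩ := h4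
    have hipos : 0 < i := by
      by_contra hcon
      push Not at hcon
      nlinarith
    have hile : i ≤ g := by
      have h6 : δ ≤ d := hdmax δ hδ
      by_contra hcon
      push Not at hcon
      nlinarith
    refine ⟨i.toNat, ?_, ?_⟩
    · rw [Finset.mem_Icc]; omega
    · have : ((i.toNat : ℕ) : ℤ) = i := by omega
      rw [this, hi]; ring
  have hkg : k ≤ g := by
    have h1 : Ap ⊆ (Finset.Icc 1 g).image (fun i : ℕ => (i : ℤ) * b) := by
      intro δ hδ
      obtain ⟨i, hi, hi2⟩ := hmul δ hδ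
      rw [Finset.mem_image]
      exact ⟨i, hi, hi2⟩
    have h2 := (Finset.card_le_card h1).trans Finset.card_image_le
    rw [Nat.card_Icc] at h2
    omega
  have hkgz : (k : ℤ) ≤ g := by exact_mod_cast hkg
  have hdA' := hdA
  rw [mem_A_iff] at hdA'
  obtain ⟨⟨_, hd2⟩, hd3⟩ := hdA'
  have hr : rho P j d = g * (2 * b * (j.val : ℤ) - P * a') := by
    rw [ha, hb, ha']; ring
  have hbnd : 16 * N * k * |2 * b * (j.val : ℤ) - P * a'| < P := by
    rw [hr, abs_mul, abs_of_pos hgz] at hd3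
    have h1 : (0 : ℤ) ≤ |2 * b * (j.val : ℤ) - P * a'| := abs_nonneg _
    have h2 : (0 : ℤ) ≤ N := Int.natCast_nonneg _
    calc 16 * N * k * |2 * b * (j.val : ℤ) - P * a'|
        ≤ 16 * N * g * |2 * b * (j.val : ℤ) - P * a'| := by
          apply mul_le_mul_of_nonneg_right _ h1
          apply mul_le_mul_of_nonneg_left hkgz
          positivity
      _ = 16 * N * (g * |2 * b * (j.val : ℤ) - P * a'|) := by ring
      _ < P := hd3
  refine ⟨b.toNat, by omega, ?_, ?_⟩
  · have h1 : ((b.toNat : ℕ) : ℤ) = b := by omega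
    zify
    rw [h1]
    calc (k : ℤ) * b ≤ g * b := mul_le_mul_of_nonneg_right hkgz hbpos.le
      _ = d := hb.symm
      _ ≤ 8 * N := hd2
  · have h1 : ((b.toNat : ℕ) : ℤ) = b := by omega
    rw [h1]
    have h2 : rho P j b = 2 * b * (j.val : ℤ) - P * a' := by
      apply rho_unique
      · have h3 : (0 : ℤ) ≤ |2 * b * (j.val : ℤ) - P * a'| := abs_nonneg _
        have hN' : (1 : ℤ) ≤ N := by exact_mod_cast hN
        have hk' : (1 : ℤ) ≤ k := by exact_mod_cast hk
        have h4 : (1 : ℤ) ≤ N * k := by nlinarith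
        nlinarith
      · push_cast
        rw [ZMod.natCast_zmod_val]
        simp
    rw [h2]
    exact hbnd

/-- number of residues with small representative -/
lemma card_small (q : ℕ) (hq : 0 < q) :
    ((Finset.univ : Finset (ZMod P)).filter (fun x => (q : ℤ) * |x.valMinAbs| < P)).card ≤
      2 * (P / q) + 1 := by
  classical
  have h1 : ((Finset.univ : Finset (ZMod P)).filter
      (fun x => (q : ℤ) * |x.valMinAbs| < P)).card ≤
      (Finset.Icc (-((P / q : ℕ) : ℤ)) ((P / q : ℕ) : ℤ)).card := by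
    refine Finset.card_le_card_of_injOn (fun x => x.valMinAbs) ?_ ?_
    · intro x hx
      rw [Finset.mem_coe, Finset.mem_filter] at hx
      rw [Finset.mem_coe, Finset.mem_Icc, ← abs_le]
      have h2 := hx.2
      rw [Int.abs_eq_natAbs] at h2 ⊢
      have h3 : q * x.valMinAbs.natAbs < P := by exact_mod_cast h2
      have h4 : x.valMinAbs.natAbs ≤ P / q := by
        rw [Nat.le_div_iff_mul_le hq]
        nlinarith
      exact_mod_cast h4
    · intro x _ y _ hxy
      exact injective_valMinAbs hxy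
  rw [Int.card_Icc] at h1
  omega

lemma card_b (N : ℕ) (b q : ℕ) (hq : 0 < q) (hb : 1 ≤ b) (hbP : 2 * b < P) :
    ((Finset.univ : Finset (ZMod P)).filter (fun j => (q : ℤ) * |rho P j (b : ℤ)| < P)).card ≤
      2 * (P / q) + 1 := by
  classical
  refine le_trans ?_ (card_small (P := P) q hq)
  refine Finset.card_le_card_of_injOn (fun j => (((2 * (b : ℤ) : ℤ)) : ZMod P) * j) ?_ ?_
  · intro j hj
    rw [Finset.mem_coe, Finset.mem_filter] at hj ⊢
    exact ⟨Finset.mem_univ _, hj.2⟩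
  · intro x _ y _ hxy
    have h1 : (((2 * (b : ℤ) : ℤ)) : ZMod P) ≠ 0 := by
      have h2 : (((2 * (b : ℤ) : ℤ)) : ZMod P) = ((2 * b : ℕ) : ZMod P) := by push_cast; ring
      rw [h2, Ne, ZMod.natCast_eq_zero_iff]
      intro hdvd
      have := Nat.le_of_dvd (by omega) hdvd
      omega
    exact mul_left_cancel₀ h1 hxy

/-- The tail bound. -/
lemma card_tail (N : ℕ) (hN : 0 < N) (hP : 64 * N ^ 2 ≤ P) (k : ℕ) (hk : 1 ≤ k) :
    (((Finset.univ : Finset (ZMod P)).filter (fun j => 2 * k + 1 ≤ (A P N j).card)).card : ℝ) ≤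
      2 * P / (k : ℝ) ^ 2 := by
  classical
  have hkr : (0 : ℝ) < k := by exact_mod_cast hk
  have hNr : (0 : ℝ) < N := by exact_mod_cast hN
  have hPr : (0 : ℝ) < P := by exact_mod_cast (Fact.out : P.Prime).pos
  have hsub : (Finset.univ : Finset (ZMod P)).filter (fun j => 2 * k + 1 ≤ (A P N j).card) ⊆
      (Finset.Icc 1 (8 * N / k)).biUnion (fun b => (Finset.univ : Finset (ZMod P)).filter
        (fun j => ((16 * N * k : ℕ) : ℤ) * |rho P j (b : ℤ)| < P)) := by
    intro j hj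
    rw [Finset.mem_filter] at hj
    obtain ⟨b, hb1, hb2, hb3⟩ := tail_imp N hN j k hk hj.2
    rw [Finset.mem_biUnion]
    refine ⟨b, ?_, ?_⟩
    · rw [Finset.mem_Icc]
      refine ⟨hb1, ?_⟩
      rw [Nat.le_div_iff_mul_le (by omega)]
      linarith
    · rw [Finset.mem_filter]
      refine ⟨Finset.mem_univ _, ?_⟩
      push_cast
      exact hb3
  by_cases hkN : k ≤ 8 * N
  · have h1 : ((Finset.univ : Finset (ZMod P)).filter
        (fun j => 2 * k + 1 ≤ (A P N j).card)).card ≤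
        (8 * N / k) * (2 * (P / (16 * N * k)) + 1) := by
      refine (Finset.card_le_card hsub).trans ?_
      refine Finset.card_biUnion_le.trans ?_
      have h2 : ∀ b ∈ Finset.Icc 1 (8 * N / k), ((Finset.univ : Finset (ZMod P)).filter
          (fun j => ((16 * N * k : ℕ) : ℤ) * |rho P j (b : ℤ)| < P)).card ≤
          2 * (P / (16 * N * k)) + 1 := by
        intro b hb
        rw [Finset.mem_Icc] at hb
        have hb8 : b ≤ 8 * N := hb.2.trans (Nat.div_le_self _ _)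
        refine card_b N b (16 * N * k) (by positivity) hb.1 ?_
        nlinarith
      refine (Finset.sum_le_card_nsmul _ _ _ h2).trans ?_
      rw [Nat.card_Icc, smul_eq_mul]
      simp
    have h3 : (((8 * N / k) * (2 * (P / (16 * N * k)) + 1) : ℕ) : ℝ) ≤
        (8 * N / k) * (2 * (P / (16 * N * k)) + 1) := by
      push_cast
      have h4 : ((8 * N / k : ℕ) : ℝ) ≤ 8 * N / k := by
        refine (Nat.cast_div_le).trans ?_
        push_cast
        exact le_rfl
      have h5 : ((P / (16 * N * k) : ℕ) : ℝ) ≤ P / (16 * N * k) := by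
        refine (Nat.cast_div_le).trans ?_
        push_cast
        exact le_rfl
      have h6 : (0 : ℝ) ≤ ((P / (16 * N * k) : ℕ) : ℝ) := by positivity
      have h7 : (0 : ℝ) ≤ 8 * N / k := by positivity
      calc ((8 * N / k : ℕ) : ℝ) * (2 * ((P / (16 * N * k) : ℕ) : ℝ) + 1)
          ≤ (8 * N / k) * (2 * ((P / (16 * N * k) : ℕ) : ℝ) + 1) :=
            mul_le_mul_of_nonneg_right h4 (by positivity)
        _ ≤ (8 * N / k) * (2 * (P / (16 * N * k)) + 1) :=
            mul_le_mul_of_nonneg_left (by linarith) h7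
    have h8 : ((8 : ℝ) * N / k) * (2 * (P / (16 * N * k)) + 1) = P / (k : ℝ) ^ 2 + 8 * N / k := by
      field_simp
      ring
    have h9 : (8 : ℝ) * N / k ≤ P / (k : ℝ) ^ 2 := by
      rw [div_le_div_iff₀ hkr (by positivity)]
      have hkN' : (k : ℝ) ≤ 8 * N := by exact_mod_cast hkN
      have hP' : 64 * (N : ℝ) ^ 2 ≤ P := by exact_mod_cast hP
      have h10 : 8 * (N : ℝ) * k ≤ P := by nlinarith
      nlinarith
    calc (((Finset.univ : Finset (ZMod P)).filter
          (fun j => 2 * k + 1 ≤ (A P N j).card)).card : ℝ)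
        ≤ (((8 * N / k) * (2 * (P / (16 * N * k)) + 1) : ℕ) : ℝ) := by exact_mod_cast h1
      _ ≤ _ := h3
      _ = P / (k : ℝ) ^ 2 + 8 * N / k := h8
      _ ≤ P / (k : ℝ) ^ 2 + P / (k : ℝ) ^ 2 := by linarith
      _ = 2 * P / (k : ℝ) ^ 2 := by ring
  · have h1 : (Finset.univ : Finset (ZMod P)).filter
        (fun j => 2 * k + 1 ≤ (A P N j).card) = ∅ := by
      rw [Finset.eq_empty_iff_forall_notMem]
      intro j hj
      rw [Finset.mem_filter] at hj
      obtain ⟨b, hb1, hb2, _⟩ := tail_imp N hN j k hk hj.2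
      push Not at hkN
      nlinarith
    rw [h1]
    simp
    positivity

lemma sum_max (M k1 : ℕ) (hk1 : 1 ≤ k1) :
    ∑ k ∈ Finset.Icc 1 M, (((max k k1 : ℕ) : ℝ) ^ 2)⁻¹ ≤ 2 / k1 := by
  have hkr : (0 : ℝ) < k1 := by exact_mod_cast hk1
  have h1 : ∑ k ∈ Finset.Icc 1 M, (((max k k1 : ℕ) : ℝ) ^ 2)⁻¹ ≤
      ∑ k ∈ Finset.Icc 1 (M + k1), (((max k k1 : ℕ) : ℝ) ^ 2)⁻¹ := by
    refine Finset.sum_le_sum_of_subset_of_nonneg ?_ (fun _ _ _ => by positivity)
    exact Finset.Icc_subset_Icc_right (by omega)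
  refine h1.trans ?_
  have h2 : Finset.Icc 1 (M + k1) = Finset.Icc 1 k1 ∪ Finset.Ioc k1 (M + k1) := by
    ext x
    simp only [Finset.mem_union, Finset.mem_Icc, Finset.mem_Ioc]
    omega
  have h3 : Disjoint (Finset.Icc 1 k1) (Finset.Ioc k1 (M + k1)) := by
    rw [Finset.disjoint_left]
    intro x hx hx2
    rw [Finset.mem_Icc] at hx
    rw [Finset.mem_Ioc] at hx2
    omega
  rw [h2, Finset.sum_union h3]
  have h4 : ∑ k ∈ Finset.Icc 1 k1, (((max k k1 : ℕ) : ℝ) ^ 2)⁻¹ = 1 / k1 := by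
    have : ∀ k ∈ Finset.Icc 1 k1, (((max k k1 : ℕ) : ℝ) ^ 2)⁻¹ = ((k1 : ℝ) ^ 2)⁻¹ := by
      intro k hk
      rw [Finset.mem_Icc] at hk
      rw [max_eq_right hk.2]
    rw [Finset.sum_congr rfl this, Finset.sum_const, Nat.card_Icc, nsmul_eq_mul]
    rw [Nat.add_sub_cancel]
    field_simp
  have h5 : ∑ k ∈ Finset.Ioc k1 (M + k1), (((max k k1 : ℕ) : ℝ) ^ 2)⁻¹ ≤ 1 / k1 := by
    have : ∀ k ∈ Finset.Ioc k1 (M + k1), (((max k k1 : ℕ) : ℝ) ^ 2)⁻¹ = ((k : ℝ) ^ 2)⁻¹ := by
      intro k hk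
      rw [Finset.mem_Ioc] at hk
      rw [max_eq_left hk.1.le]
    rw [Finset.sum_congr rfl this]
    have h6 := sum_Ioc_inv_sq_le_sub (α := ℝ) (k := k1) (n := M + k1) (by omega) (by omega)
    have h7 : (0 : ℝ) ≤ ((M + k1 : ℕ) : ℝ)⁻¹ := by positivity
    rw [one_div]
    linarith
  rw [h4]
  calc 1 / (k1 : ℝ) + _ ≤ 1 / k1 + 1 / k1 := by linarith
    _ = 2 / k1 := by ring

/-- half size -/
noncomputable def kap (P N : ℕ) (j : ZMod P) : ℕ := ((A P N j).card - 1) / 2

lemma card_A_le (N : ℕ) (j : ZMod P) : (A P N j).card ≤ 16 * N + 1 := by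
  unfold A
  refine (Finset.card_filter_le _ _).trans ?_
  rw [Int.card_Icc]
  omega

/-- The mass of the tail. -/
theorem tail_sum (N : ℕ) (hN : 0 < N) (hP : 64 * N ^ 2 ≤ P) (k1 : ℕ) (hk1 : 1 ≤ k1) :
    ∑ j : ZMod P, (if k1 ≤ kap P N j then ((A P N j).card : ℝ) else 0) ≤ 16 * P / k1 := by
  classical
  have hkr : (0 : ℝ) < k1 := by exact_mod_cast hk1
  have hPr : (0 : ℝ) < P := by exact_mod_cast (Fact.out : P.Prime).pos
  have h1 : ∀ j : ZMod P, (if k1 ≤ kap P N j then ((A P N j).card : ℝ) else 0) ≤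
      ∑ k ∈ Finset.Icc 1 (8 * N), (if max k k1 ≤ kap P N j then (4 : ℝ) else 0) := by
    intro j
    split_ifs with hj
    · have h2 : ∑ k ∈ Finset.Icc 1 (8 * N), (if max k k1 ≤ kap P N j then (4 : ℝ) else 0) =
          4 * (kap P N j : ℝ) := by
        have h3 : (Finset.Icc 1 (8 * N)).filter (fun k => max k k1 ≤ kap P N j) =
            Finset.Icc 1 (kap P N j) := by
          have h4 : kap P N j ≤ 8 * N := by
            unfold kap
            have := card_A_le N j
            omega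
          ext x
          simp only [Finset.mem_filter, Finset.mem_Icc]
          omega
        rw [← Finset.sum_filter, h3, Finset.sum_const, Nat.card_Icc, nsmul_eq_mul]
        rw [Nat.add_sub_cancel]
        ring
      rw [h2]
      have h5 : (A P N j).card ≤ 4 * kap P N j := by
        have : (A P N j).card ≤ 2 * kap P N j + 2 := by
          unfold kap; omega
        omega
      exact_mod_cast h5
    · exact Finset.sum_nonneg (fun _ _ => by split_ifs <;> norm_num)
  refine (Finset.sum_le_sum (fun j _ => h1 j)).trans ?_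
  rw [Finset.sum_comm]
  have h6 : ∀ k ∈ Finset.Icc 1 (8 * N),
      ∑ j : ZMod P, (if max k k1 ≤ kap P N j then (4 : ℝ) else 0) ≤
        8 * P * (((max k k1 : ℕ) : ℝ) ^ 2)⁻¹ := by
    intro k _
    have h7 : 1 ≤ max k k1 := le_trans hk1 (le_max_right _ _)
    have h8 := card_tail (P := P) N hN hP (max k k1) h7
    have h9 : (Finset.univ : Finset (ZMod P)).filter (fun j => max k k1 ≤ kap P N j) =
        (Finset.univ : Finset (ZMod P)).filter
          (fun j => 2 * (max k k1) + 1 ≤ (A P N j).card) := by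
      ext j
      simp only [Finset.mem_filter, Finset.mem_univ, true_and]
      unfold kap
      omega
    rw [← Finset.sum_filter, h9, Finset.sum_const, nsmul_eq_mul]
    have h10 : (0 : ℝ) < ((max k k1 : ℕ) : ℝ) ^ 2 := by
      have : (0 : ℝ) < ((max k k1 : ℕ) : ℝ) := by exact_mod_cast h7
      positivity
    calc _ ≤ 2 * P / (((max k k1 : ℕ) : ℝ)) ^ 2 * 4 := by
          exact mul_le_mul_of_nonneg_right h8 (by norm_num)
      _ = _ := by rw [div_eq_mul_inv]; ring
  refine (Finset.sum_le_sum h6).trans ?_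
  rw [← Finset.mul_sum]
  calc 8 * (P : ℝ) * ∑ k ∈ Finset.Icc 1 (8 * N), (((max k k1 : ℕ) : ℝ) ^ 2)⁻¹
      ≤ 8 * P * (2 / k1) := mul_le_mul_of_nonneg_left (sum_max _ k1 hk1) (by positivity)
    _ = 16 * P / k1 := by ring

end Pool.Agent.Lib.MP_93db31_nt
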