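import Mathlib
import Pool.Agent.Lib.MP_93db31_nt.Tail

/-!
The rank bound and the gap bound.
-/

namespace Pool.Agent.Lib.MP_93db31_nt

open Finset ZMod Polynomial

/-- number of ones, from below -/
lemma sum_sq_sub (M : ℕ) (hM : 1 ≤ M) :
    6 * ∑ m ∈ Finset.Icc 2 M, ((m : ℤ) ^ 2 - 1) =
      (M : ℤ) * ((M : ℤ) + 1) * (2 * (M : ℤ) + 1) - 6 * (M : ℤ) := by
  induction M, hM using Nat.le_induction with
  | base => simp
  | succ M hM ih =>
    rw [Finset.sum_Icc_succ_top (by omega), mul_add, ih]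
    push_cast
    ring

lemma ones_lower (u : ℕ) (hu : 1 ≤ u) :
    114 * (u : ℝ) ^ 3 ≤ ∑ y : Fin (50 * u ^ 2), ∑ b : Fin (50 * u ^ 2),
      h ((y : ℕ) + (b : ℕ) + 2) := by
  classical
  set n := 50 * u ^ 2 with hn
  have h1 : ∑ y : Fin n, ∑ b : Fin n, h ((y : ℕ) + (b : ℕ) + 2) =
      (((range n ×ˢ range n).filter (fun p : ℕ × ℕ => IsSquare (p.1 + p.2 + 2))).card : ℝ) := by
    rw [Fin.sum_univ_eq_sum_range (fun y => ∑ b : Fin n, h (y + (b : ℕ) + 2)) n]
    have h2 : ∀ y, ∑ b : Fin n, h (y + (b : ℕ) + 2) = ∑ b ∈ range n, h (y + b + 2) := by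
      intro y
      rw [Fin.sum_univ_eq_sum_range (fun b => h (y + b + 2)) n]
    rw [Finset.sum_congr rfl (fun y _ => h2 y), ← Finset.sum_product']
    unfold h
    rw [Finset.sum_boole]
  rw [h1]
  set S := (Finset.Icc 2 (7 * u)).sigma (fun m => range (m ^ 2 - 1)) with hS
  have h3 : S.card ≤ ((range n ×ˢ range n).filter
      (fun p : ℕ × ℕ => IsSquare (p.1 + p.2 + 2))).card := by
    refine Finset.card_le_card_of_injOn (fun s => (s.2, s.1 ^ 2 - 2 - s.2)) ?_ ?_
    · rintro ⟨m, y⟩ hs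
      rw [Finset.mem_coe, hS, Finset.mem_sigma, Finset.mem_Icc, Finset.mem_range] at hs
      obtain ⟨⟨hm1, hm2⟩, hy⟩ := hs
      simp only at hm1 hm2 hy
      have hm3 : 2 ^ 2 ≤ m ^ 2 := Nat.pow_le_pow_left hm1 2
      have hm4 : m ^ 2 ≤ (7 * u) ^ 2 := Nat.pow_le_pow_left hm2 2
      have hu2 : 1 ≤ u ^ 2 := Nat.one_le_pow _ _ hu
      have hm5 : m ^ 2 ≤ 49 * u ^ 2 := by
        calc m ^ 2 ≤ (7 * u) ^ 2 := hm4
          _ = 49 * u ^ 2 := by ring
      rw [Finset.mem_coe, Finset.mem_filter, Finset.mem_product, Finset.mem_range,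
        Finset.mem_range]
      simp only
      refine ⟨⟨by omega, by omega⟩, ⟨m, ?_⟩⟩
      have : y + (m ^ 2 - 2 - y) + 2 = m ^ 2 := by omega
      rw [this, sq]
    · rintro ⟨m, y⟩ hs ⟨m', y'⟩ hs' hss
      rw [Finset.mem_coe, hS, Finset.mem_sigma, Finset.mem_Icc, Finset.mem_range] at hs hs'
      obtain ⟨⟨hm1, hm2⟩, hy⟩ := hs
      obtain ⟨⟨hm1', hm2'⟩, hy'⟩ := hs'
      simp only [Prod.mk.injEq] at hm1 hm2 hy hm1' hm2' hy' hss
      have hm3 : 2 ^ 2 ≤ m ^ 2 := Nat.pow_le_pow_left hm1 2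
      have hm3' : 2 ^ 2 ≤ m' ^ 2 := Nat.pow_le_pow_left hm1' 2
      have h4 : m ^ 2 = m' ^ 2 := by omega
      have h5 : m = m' := Nat.pow_left_injective (n := 2) (by norm_num) h4
      subst h5
      have h6 : y = y' := hss.1
      subst h6
      rfl
  have h4 : (S.card : ℤ) = ∑ m ∈ Finset.Icc 2 (7 * u), ((m : ℤ) ^ 2 - 1) := by
    rw [hS, Finset.card_sigma]
    push_cast
    refine Finset.sum_congr rfl (fun m hm => ?_)
    rw [Finset.mem_Icc] at hm
    have hm3 : 2 ^ 2 ≤ m ^ 2 := Nat.pow_le_pow_left hm.1 2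
    rw [Finset.card_range, Nat.cast_sub (by omega)]
    push_cast
    ring
  have h5 := sum_sq_sub (7 * u) (by omega)
  rw [← h4] at h5
  have h6 : 114 * (u : ℤ) ^ 3 ≤ S.card := by
    push_cast at h5
    have hu' : (1 : ℤ) ≤ u := by exact_mod_cast hu
    nlinarith [mul_nonneg (sub_nonneg.mpr hu') (sq_nonneg (u : ℤ)), sq_nonneg (u : ℤ)]
  have h7 : (114 : ℝ) * (u : ℝ) ^ 3 ≤ (S.card : ℝ) := by exact_mod_cast h6
  refine h7.trans ?_
  exact_mod_cast h3

/-- The dimension of the row space is large. -/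
theorem rank_lower (u : ℕ) (hu : 1 ≤ u) :
    (u : ℝ) ^ 2 ≤ 44400 * (Module.finrank ℝ (rowSpace (50 * u ^ 2)) : ℝ) := by
  classical
  set n := 50 * u ^ 2 with hn
  set N := 10 * u with hN
  have hNpos : 0 < N := by omega
  obtain ⟨P, hPge, hPp⟩ := Nat.exists_infinite_primes (64 * N ^ 2)
  have : Fact P.Prime := ⟨hPp⟩
  have hu2 : 1 ≤ u ^ 2 := Nat.one_le_pow _ _ hu
  have hN2 : N ^ 2 = 100 * u ^ 2 := by rw [hN]; ring
  have hP4 : 4 * N ^ 2 < P := by omega
  obtain ⟨S, hS0, hSn, hSsum, hE⟩ := energy (P := P) N n (W N) (W_eq N hNpos) (by omega) hP4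
  have hones := ones_lower u hu
  set r : ℝ := (Module.finrank ℝ (rowSpace n) : ℝ) with hr
  have hPr : (0 : ℝ) < P := by exact_mod_cast hPp.pos
  have hNr : (0 : ℝ) < N := by exact_mod_cast hNpos
  have hur : (1 : ℝ) ≤ u := by exact_mod_cast hu
  have hpt : ∀ j : ZMod P, ‖f P N (W N) j‖ ^ 2 * S j ≤
      (240 * N * 4300) * S j + (120 * N * n) *
        (if 4300 ≤ kap P N j then ((A P N j).card : ℝ) else 0) := by
    intro j
    have h1 := pointwise (P := P) N hNpos j
    have h2 : (0 : ℝ) ≤ (A P N j).card := Nat.cast_nonneg _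
    split_ifs with hj
    · calc ‖f P N (W N) j‖ ^ 2 * S j ≤ (120 * N * (A P N j).card) * n :=
            mul_le_mul h1 (hSn j) (hS0 j) (by positivity)
        _ = (120 * N * n) * (A P N j).card := by ring
        _ ≤ _ := by
            have : 0 ≤ (240 * (N : ℝ) * 4300) * S j := by
              have := hS0 j
              positivity
            linarith
    · have h3 : (A P N j).card ≤ 2 * 4300 := by
        unfold kap at hj
        omega
      have h4 : ((A P N j).card : ℝ) ≤ 2 * 4300 := by exact_mod_cast h3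
      rw [mul_zero, add_zero]
      refine mul_le_mul_of_nonneg_right (h1.trans ?_) (hS0 j)
      nlinarith
  have htail := tail_sum (P := P) N hNpos hPge 4300 (by norm_num)
  have hsum : ∑ j : ZMod P, ‖f P N (W N) j‖ ^ 2 * S j ≤
      (240 * N * 4300) * (P * r) + (120 * N * n) * (16 * P / 4300) := by
    refine (Finset.sum_le_sum (fun j _ => hpt j)).trans ?_
    rw [Finset.sum_add_distrib, ← Finset.mul_sum, ← Finset.mul_sum, hSsum]
    have : (0 : ℝ) ≤ 120 * N * n := by positivity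
    have h5 := mul_le_mul_of_nonneg_left htail this
    push_cast at h5
    linarith
  have h6 : (P : ℝ) * (456 * (u : ℝ) ^ 3) ≤
      P * ((240 * N * 4300) * r + (120 * N * n) * (16 / 4300)) := by
    calc (P : ℝ) * (456 * (u : ℝ) ^ 3) = P * (4 * (114 * (u : ℝ) ^ 3)) := by ring
      _ ≤ P * (4 * ∑ y : Fin n, ∑ b : Fin n, h ((y : ℕ) + (b : ℕ) + 2)) := by
          apply mul_le_mul_of_nonneg_left _ hPr.le
          linarith
      _ ≤ _ := hE
      _ ≤ _ := hsum
      _ = _ := by ring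
  have h7 := le_of_mul_le_mul_left h6 hPr
  have hNu : (N : ℝ) = 10 * u := by rw [hN]; push_cast; ring
  have hnu : (n : ℝ) = 50 * (u : ℝ) ^ 2 := by rw [hn]; push_cast; ring
  rw [hNu, hnu] at h7
  have h8 : (u : ℝ) * (232 * (u : ℝ) ^ 2) ≤ u * (10320000 * r) := by
    nlinarith [pow_pos (lt_of_lt_of_le one_pos hur) 3]
  have h9 := le_of_mul_le_mul_left h8 (by linarith)
  have hr0 : 0 ≤ r := Nat.cast_nonneg _
  nlinarith

/-- monotonicity in the size -/
lemma finrank_mono (n' n : ℕ) (hn : n' ≤ n) :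
    Module.finrank ℝ (rowSpace n') ≤ Module.finrank ℝ (rowSpace n) := by
  let π : EuclideanSpace ℝ (Fin n) →ₗ[ℝ] EuclideanSpace ℝ (Fin n') :=
    { toFun := fun v => WithLp.toLp 2 (fun b : Fin n' => v (Fin.castLE hn b))
      map_add' := fun v w => by ext b; simp
      map_smul' := fun a v => by ext b; simp }
  have h1 : rowSpace n' ≤ (rowSpace n).map π := by
    unfold rowSpace
    rw [Submodule.span_le]
    rintro _ ⟨y, rfl⟩
    refine ⟨row n (Fin.castLE hn y), Submodule.subset_span ⟨Fin.castLE hn y, rfl⟩, ?_⟩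
    ext b
    simp [π, row]
  exact (Submodule.finrank_mono h1).trans (Submodule.finrank_map_le π _)

/-- The gap theorem. -/
theorem gap (N : ℕ) (hN : 1 ≤ N) :
    ∃ n, N ≤ n ∧ n ≤ 5000000 * N ∧ (sqMat n).det ≠ 0 := by
  by_contra hcon
  push Not at hcon
  obtain ⟨V, hV, hVd, hVw⟩ := run_det N (5000000 * N) (by omega) hcon
  set u := Nat.sqrt (50000 * N) with hu
  have h1 : u * u ≤ 50000 * N := Nat.sqrt_le _
  have h2 : 50000 * N < (u + 1) * (u + 1) := Nat.lt_succ_sqrt _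
  have hu222 : 222 ≤ u := by
    rw [hu, Nat.le_sqrt]
    omega
  have h3 := finrank_rowSpace_le V hV (50 * u ^ 2) (5000000 * N) (by nlinarith) hVw
  have h4 := rank_lower u (by omega)
  have h5 : (Module.finrank ℝ (rowSpace (50 * u ^ 2)) : ℝ) < N := by
    exact_mod_cast lt_of_le_of_lt h3 hVd
  have h6 : (50000 : ℝ) * N < (u + 1) * (u + 1) := by exact_mod_cast h2
  have h7 : (222 : ℝ) ≤ u := by exact_mod_cast hu222
  have h8 : (u : ℝ) ^ 2 < 44400 * N := by linarith
  nlinarith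

/-- rank of the real matrix -/
lemma rank_eq (n : ℕ) :
    ((sqMat n).map (Int.cast : ℤ → ℝ)).rank = Module.finrank ℝ (rowSpace n) := by
  rw [Matrix.rank_eq_finrank_span_row]
  let e := (WithLp.linearEquiv 2 ℝ (Fin n → ℝ))
  have h1 : (rowSpace n).map e.toLinearMap =
      Submodule.span ℝ (Set.range ((sqMat n).map (Int.cast : ℤ → ℝ)).row) := by
    unfold rowSpace
    rw [Submodule.map_span, ← Set.range_comp]
    congr 2
    ext y b
    change h ((y : ℕ) + (b : ℕ) + 2) =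
      (((if IsSquare ((y : ℕ) + 1 + ((b : ℕ) + 1)) then 1 else 0 : ℤ)) : ℝ)
    have : (y : ℕ) + (b : ℕ) + 2 = (y : ℕ) + 1 + ((b : ℕ) + 1) := by ring
    rw [h, this]
    split_ifs <;> simp
  rw [← h1]
  exact LinearEquiv.finrank_map_eq e _

/-- The rank theorem. -/
theorem rank_ge (n : ℕ) (hn : 2 ≤ n) :
    (n : ℝ) ≤ 10 ^ 7 * (((sqMat n).map (Int.cast : ℤ → ℝ)).rank : ℝ) := by
  rw [rank_eq]
  by_cases h50 : n < 50
  · -- rank at least one
    have h1 : 1 ≤ Module.finrank ℝ (rowSpace n) := by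
      rw [Nat.one_le_iff_ne_zero]
      intro h0
      have h2 : rowSpace n = ⊥ := Submodule.finrank_eq_zero.mp h0
      have h3 : row n (1 : ℕ) ∈ rowSpace n := row_mem n ⟨1, by omega⟩
      rw [h2, Submodule.mem_bot] at h3
      have h4 := congrFun (congrArg WithLp.ofLp h3) (⟨1, by omega⟩ : Fin n)
      have h5 : h (1 + 1 + 2) = 0 := h4
      rw [h, if_pos ⟨2, by norm_num⟩] at h5
      exact one_ne_zero h5
    have h2 : (1 : ℝ) ≤ (Module.finrank ℝ (rowSpace n) : ℝ) := by exact_mod_cast h1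
    have h3 : (n : ℝ) < 50 := by exact_mod_cast h50
    linarith
  · push Not at h50
    set u := Nat.sqrt (n / 50) with hu
    have h1 : u * u ≤ n / 50 := Nat.sqrt_le _
    have h2 : n / 50 < (u + 1) * (u + 1) := Nat.lt_succ_sqrt _
    have hu1 : 1 ≤ u := by
      rw [hu, Nat.le_sqrt]
      omega
    have h3 := rank_lower u hu1
    have h4 : 50 * u ^ 2 ≤ n := by nlinarith [Nat.div_mul_le_self n 50]
    have h5 := finrank_mono _ _ h4
    have h6 : (Module.finrank ℝ (rowSpace (50 * u ^ 2)) : ℝ) ≤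
        (Module.finrank ℝ (rowSpace n) : ℝ) := by exact_mod_cast h5
    have h7 : n < 50 * ((u + 1) * (u + 1)) := by omega
    have h8 : (n : ℝ) < 50 * ((u + 1) * (u + 1)) := by exact_mod_cast h7
    have h9 : (1 : ℝ) ≤ u := by exact_mod_cast hu1
    nlinarith

end Pool.Agent.Lib.MP_93db31_nt
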